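import Pool.Agent.L7h9.FR.Near
set_option autoImplicit false

/-!
Square roots of functions close to one, and families of functions which are close to monomials for
large parameters.
-/

namespace Pool.Agent.L7h9.FR

open Pool.Agent.TH826.MK

open Pool.Agent.N65.TL (good_inv lw_inv)

section root

variable {h : (Fin 1 → ℝ) → ℂ} {s η : ℝ}

/-- The square root of `1 + h`. -/
noncomputable def rt (h : (Fin 1 → ℝ) → ℂ) (θ : Fin 1 → ℝ) : ℂ :=
  Complex.exp (Complex.log (1 + h θ) / 2)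

theorem rt_sq (hh : Sm h η) (hη : η ≤ 1 / 4) (θ : Fin 1 → ℝ) : rt h θ ^ 2 = 1 + h θ := by
  have h0 : 1 + h θ ≠ 0 := by
    intro h0
    have h1 := hh.le θ
    have h2 : h θ = -1 := by linear_combination h0
    rw [h2, norm_neg, norm_one] at h1
    linarith
  unfold rt
  rw [← Complex.exp_nat_mul]
  push_cast
  rw [mul_div_cancel₀ _ two_ne_zero, Complex.exp_log h0]

theorem rt_near (hh : Sm h η) (hη : η ≤ 1 / 4) (hs : 1 ≤ s) : Near (rt h) s 0 0 (2 * η) := by
  have hn := hh.near (by linarith) hs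
  have h0 : 0 ≤ η := (norm_nonneg _).trans (hh.le 0)
  have hsm : ContDiff ℝ 2 fun θ => Complex.log (1 + h θ) := by
    refine contDiff_iff_contDiffAt.2 fun θ => ?_
    have hmem : 1 + h θ ∈ Complex.slitPlane := by
      refine Complex.mem_slitPlane_of_norm_lt_one ?_
      exact (hh.le θ).trans_lt (by linarith)
    exact ((Complex.contDiffAt_log hmem).restrict_scalars ℝ).comp θ
      (contDiffAt_const.add hh.smooth.contDiffAt)
  have hg : Good (rt h) := by
    refine ⟨?_, fun θ => Complex.exp_ne_zero _⟩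
    unfold rt
    exact Complex.contDiff_exp.comp (hsm.div_const _)
  have hsq : (fun θ => rt h θ * rt h θ) = fun θ => 1 + h θ := funext fun θ => by
    rw [← pow_two]
    exact rt_sq hh hη θ
  refine ⟨hg, fun θ i => ?_, fun θ => ?_, fun j θ => ?_⟩
  · unfold rt
    rw [hh.per]
  · have h1 : Real.log ‖rt h θ‖ = Real.log ‖1 + h θ‖ / 2 := by
      rw [← rt_sq hh hη θ, norm_pow, Real.log_pow]
      push_cast
      ring
    rw [h1]
    have h2 := hn.log θ
    rw [sub_zero] at h2 ⊢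
    have e : Real.log ‖1 + h θ‖ / 2 / s = (Real.log ‖1 + h θ‖ / s) / 2 := by ring
    rw [e, abs_div, abs_of_pos (by norm_num : (0 : ℝ) < 2)]
    linarith
  · have h1 : lw (rt h) j θ = lw (fun θ => 1 + h θ) j θ / 2 := by
      rw [← hsq, lw_mul hg hg]
      ring
    have h2 := hn.lwd j θ
    rw [Complex.ofReal_zero, mul_zero, sub_zero] at h2 ⊢
    rw [h1, norm_div]
    have e : ‖(2 : ℂ)‖ = 2 := by simp
    rw [e]
    linarith

theorem rt_sub_one (hh : Sm h η) (hη : η ≤ 1 / 4) (θ : Fin 1 → ℝ) : ‖rt h θ - 1‖ ≤ 2 * η := by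
  unfold rt
  have h1 : ‖h θ‖ ≤ 1 / 2 := (hh.le θ).trans (by linarith)
  have h2 := Complex.norm_log_one_add_half_le_self h1
  have h3 : ‖Complex.log (1 + h θ) / 2‖ ≤ 3 / 4 * ‖h θ‖ := by
    rw [norm_div]
    have e : ‖(2 : ℂ)‖ = 2 := by simp
    rw [e]
    linarith
  have h4 := Complex.norm_exp_sub_one_le (x := Complex.log (1 + h θ) / 2) (by
    have := hh.le θ
    linarith)
  have := hh.le θ
  have := norm_nonneg (h θ)
  linarith

end root

section ev

variable {P : Type*} {V : ℝ → P → Prop} {G H : P → (Fin 1 → ℝ) → ℂ} {a b k l : ℝ}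

/-- Families of functions which are close to monomials for large `s`. -/
def Ev (V : ℝ → P → Prop) (G : P → (Fin 1 → ℝ) → ℂ) (a k : ℝ) : Prop :=
  ∀ δ : ℝ, 0 < δ → ∃ S : ℝ, 1 ≤ S ∧ ∀ s, S ≤ s → ∀ p, V s p → Near (G p) s a k δ

/-- Families of functions which are small for large `s`. -/
def EvSm (V : ℝ → P → Prop) (G : P → (Fin 1 → ℝ) → ℂ) : Prop :=
  ∀ δ : ℝ, 0 < δ → ∃ S : ℝ, 1 ≤ S ∧ ∀ s, S ≤ s → ∀ p, V s p → Sm (G p) δ

theorem Ev.congr (hG : Ev V G a k) (ha : a = b) (hk : k = l) : Ev V G b l := by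
  subst ha hk
  exact hG

theorem Ev.mul (hG : Ev V G a k) (hH : Ev V H b l) :
    Ev V (fun p θ => G p θ * H p θ) (a + b) (k + l) := by
  intro δ hδ
  obtain ⟨S, hS, h1⟩ := hG (δ / 2) (by linarith)
  obtain ⟨T, hT, h2⟩ := hH (δ / 2) (by linarith)
  refine ⟨max S T, hS.trans (le_max_left _ _), fun s hs p hp => ?_⟩
  exact ((h1 s ((le_max_left _ _).trans hs) p hp).mul
    (h2 s ((le_max_right _ _).trans hs) p hp)).mono (by linarith)

theorem Ev.inv (hG : Ev V G a k) : Ev V (fun p θ => (G p θ)⁻¹) (-a) (-k) := by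
  intro δ hδ
  obtain ⟨S, hS, h1⟩ := hG δ hδ
  exact ⟨S, hS, fun s hs p hp => (h1 s hs p hp).inv⟩

theorem Ev.div (hG : Ev V G a k) (hH : Ev V H b l) :
    Ev V (fun p θ => G p θ / H p θ) (a - b) (k - l) := by
  have h := hG.mul hH.inv
  simp only [← div_eq_mul_inv] at h
  exact h.congr (by ring) (by ring)

theorem ev_const {c : ℂ} (hc : c ≠ 0) : Ev V (fun _ _ => c) 0 0 := by
  intro δ hδ
  refine ⟨max 1 (|Real.log ‖c‖| / δ), le_max_left _ _, fun s hs p hp => ?_⟩
  have hs1 : 1 ≤ s := (le_max_left _ _).trans hs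
  have hs2 : |Real.log ‖c‖| / δ ≤ s := (le_max_right _ _).trans hs
  refine near_const' hc ?_
  rw [abs_div, abs_of_pos (by linarith : 0 < s), div_le_iff₀ (by linarith)]
  rw [div_le_iff₀ hδ] at hs2
  linarith

theorem ev_cx : Ev V (fun _ => cx) 0 1 := by
  intro δ hδ
  exact ⟨1, le_rfl, fun s hs p hp => near_cx.mono hδ.le⟩

/-- Families of constants of absolute value `exp (a s)`. -/
theorem ev_exp {c : P → ℂ} (hc : ∀ s p, V s p → ‖c p‖ = Real.exp (a * s)) :
    Ev V (fun p _ => c p) a 0 := by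
  intro δ hδ
  exact ⟨1, le_rfl, fun s hs p hp => (near_const_exp (by linarith) (hc s p hp)).mono hδ.le⟩

theorem Ev.sm (hG : Ev V G a k) (ha : a < 0) : EvSm V G := by
  intro η hη
  obtain ⟨S, hS, h1⟩ := hG (-a / 2) (by linarith)
  set B : ℝ := 2 * Real.pi * |k| + -a / 2 + 1 with hB
  have hB0 : 0 < B := by
    have := Real.pi_pos
    have := abs_nonneg k
    have : 0 ≤ 2 * Real.pi * |k| := by positivity
    linarith
  set T : ℝ := Real.log (B / η) / (-a / 2) with hT
  refine ⟨max S T, hS.trans (le_max_left _ _), fun s hs p hp => ?_⟩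
  have hs1 : 1 ≤ s := hS.trans ((le_max_left _ _).trans hs)
  refine (h1 s ((le_max_left _ _).trans hs) p hp).sm (by linarith) ?_
  have h2 : T ≤ s := (le_max_right _ _).trans hs
  rw [hT, div_le_iff₀ (by linarith)] at h2
  have h3 : B / η ≤ Real.exp (s * (-a / 2)) := by
    rw [← Real.log_le_iff_le_exp (by positivity)]
    exact h2
  rw [div_le_iff₀ hη] at h3
  have h4 : Real.exp ((a + -a / 2) * s) = (Real.exp (s * (-a / 2)))⁻¹ := by
    rw [← Real.exp_neg]
    congr 1
    ring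
  rw [h4, inv_mul_le_iff₀ (Real.exp_pos _)]
  exact h3

theorem Sm.neg {h : (Fin 1 → ℝ) → ℂ} {η : ℝ} (hh : Sm h η) : Sm (fun θ => -h θ) η := by
  refine ⟨hh.smooth.neg, fun θ i => ?_, fun θ => ?_, fun j θ => ?_⟩
  · rw [hh.per]
  · rw [norm_neg]
    exact hh.le θ
  · have h1 : fderiv ℝ (fun θ => -h θ) θ = -fderiv ℝ h θ := fderiv_fun_neg
    rw [h1, neg_apply, norm_neg]
    exact hh.der j θ

theorem EvSm.neg (hG : EvSm V G) : EvSm V fun p θ => -G p θ := by
  intro δ hδ
  obtain ⟨S, hS, h1⟩ := hG δ hδ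
  exact ⟨S, hS, fun s hs p hp => (h1 s hs p hp).neg⟩

theorem EvSm.near (hG : EvSm V G) : Ev V (fun p θ => 1 + G p θ) 0 0 := by
  intro δ hδ
  obtain ⟨S, hS, h1⟩ := hG (min (δ / 2) (1 / 2)) (by positivity)
  refine ⟨S, hS, fun s hs p hp => ?_⟩
  exact ((h1 s hs p hp).near (min_le_right _ _) (hS.trans hs)).mono (by
    have := min_le_left (δ / 2) (1 / 2 : ℝ)
    linarith)

theorem EvSm.near_sub (hG : EvSm V G) : Ev V (fun p θ => 1 - G p θ) 0 0 := by
  have h := hG.neg.near
  simp only [← sub_eq_add_neg] at h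
  exact h

theorem EvSm.rt (hG : EvSm V G) : Ev V (fun p => rt (G p)) 0 0 := by
  intro δ hδ
  obtain ⟨S, hS, h1⟩ := hG (min (δ / 2) (1 / 4)) (by positivity)
  refine ⟨S, hS, fun s hs p hp => ?_⟩
  exact (rt_near (h1 s hs p hp) (min_le_right _ _) (hS.trans hs)).mono (by
    have := min_le_left (δ / 2) (1 / 4 : ℝ)
    linarith)

/-- The difference of two functions with different exponents. -/
theorem Ev.sub_of_lt (hG : Ev V G a k) (hH : Ev V H b l) (hab : b < a) :
    Ev V (fun p θ => G p θ - H p θ) a k := by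
  have h1 := (hH.div hG).sm (by linarith)
  have h2 := hG.mul h1.near_sub
  intro δ hδ
  obtain ⟨S, hS, h3⟩ := h2 δ hδ
  obtain ⟨T, hT, h4⟩ := hG δ hδ
  refine ⟨max S T, hS.trans (le_max_left _ _), fun s hs p hp => ?_⟩
  have h5 := h3 s ((le_max_left _ _).trans hs) p hp
  have h6 := h4 s ((le_max_right _ _).trans hs) p hp
  have e : (fun θ => G p θ * (1 - H p θ / G p θ)) = fun θ => G p θ - H p θ := by
    funext θ
    rw [mul_sub, mul_one, mul_div_cancel₀ _ (h6.good.ne_zero θ)]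
  beta_reduce at h5
  rw [e] at h5
  exact h5.congr (add_zero _) (add_zero _)

theorem Ev.neg (hG : Ev V G a k) : Ev V (fun p θ => -G p θ) a k := by
  have h := (ev_const (V := V) (c := -1) (by norm_num)).mul hG
  simp only [neg_mul, one_mul] at h
  exact h.congr (zero_add _) (zero_add _)

theorem Ev.sub_of_gt (hG : Ev V G a k) (hH : Ev V H b l) (hab : a < b) :
    Ev V (fun p θ => G p θ - H p θ) b l := by
  have h := (hH.sub_of_lt hG hab).neg
  simp only [neg_sub] at h
  exact h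

/-- The function `(X - 1) / (X + 1)` for small or large `X`. -/
theorem Ev.ratio (hG : Ev V G a k) (ha : a ≠ 0) :
    Ev V (fun p θ => (G p θ - 1) / (G p θ + 1)) 0 0 := by
  rcases lt_or_gt_of_ne ha with h | h
  · have h1 := hG.sm h
    have h2 := (h1.near_sub.div h1.near).neg
    have e : (fun p θ => -((1 - G p θ) / (1 + G p θ))) =
        fun p θ => (G p θ - 1) / (G p θ + 1) := by
      funext p θ
      rw [← neg_div, neg_sub, add_comm]
    rw [e] at h2
    exact h2.congr (sub_zero _) (sub_zero _)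
  · have h1 := hG.inv.sm (by linarith)
    have h2 := h1.near_sub.div h1.near
    intro δ hδ
    obtain ⟨S, hS, h3⟩ := h2 δ hδ
    obtain ⟨T, hT, h4⟩ := hG δ hδ
    refine ⟨max S T, hS.trans (le_max_left _ _), fun s hs p hp => ?_⟩
    have h5 := h3 s ((le_max_left _ _).trans hs) p hp
    have h6 := h4 s ((le_max_right _ _).trans hs) p hp
    have e : (fun θ => (1 - (G p θ)⁻¹) / (1 + (G p θ)⁻¹)) =
        fun θ => (G p θ - 1) / (G p θ + 1) := by
      funext θ
      have h7 := h6.good.ne_zero θ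
      have h8 : 1 - (G p θ)⁻¹ = (G p θ - 1) / G p θ := by field_simp
      have h9 : 1 + (G p θ)⁻¹ = (G p θ + 1) / G p θ := by field_simp
      rw [h8, h9, div_div_div_cancel_right₀ h7]
    beta_reduce at h5
    rw [e] at h5
    exact h5.congr (sub_zero _) (sub_zero _)

end ev

end Pool.Agent.L7h9.FR
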