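import Pool.Agent.L7h9.FR.Pts
import Pool.Agent.L7h9.CP.Lin
set_option autoImplicit false

/-!
The limits of the regulators on all loops have full rank, and the loops for large powers of units.
-/

namespace Pool.Agent.L7h9.FR

open Pool.Agent.TH826.MK

variable {m : ℕ}

theorem exists_gen (n : Fin (m + 1) → ℝ) {a b : ℝ} (h : a < b) :
    ∃ ρ, a < ρ ∧ ρ < b ∧ Gen n ρ := by
  classical
  set S : Finset ℝ := Finset.univ.image n ∪
    Finset.univ.image (fun q : Fin (m + 1) × Fin (m + 1) => (n q.1 + n q.2) / 2) with hS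
  obtain ⟨ρ, hρ, hn⟩ := (Set.Ioo_infinite h).exists_notMem_finset S
  refine ⟨ρ, hρ.1, hρ.2, fun i hi => hn ?_, fun i j _ hij => hn ?_⟩
  · rw [hS, Finset.mem_union]
    exact Or.inl (Finset.mem_image.2 ⟨i, Finset.mem_univ _, hi⟩)
  · rw [hS, Finset.mem_union]
    refine Or.inr (Finset.mem_image.2 ⟨(i, j), Finset.mem_univ _, ?_⟩)
    show (n i + n j) / 2 = ρ
    rw [hij]
    ring

theorem second_diff (n : Fin (m + 1) → ℝ) {ρ : ℝ} {i0 j0 : Fin (m + 1)} (h1 : n i0 < ρ)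
    (h2 : ρ < n j0) (q : Pr m) :
    lim n ρ (fun _ => 1) q.1.1 q.1.2 -
      lim n ρ (Function.update (fun _ => 1) i0 (-1)) q.1.1 q.1.2 -
      lim n ρ (Function.update (fun _ => 1) j0 (-1)) q.1.1 q.1.2 +
      lim n ρ (Function.update (Function.update (fun _ => 1) i0 (-1)) j0 (-1)) q.1.1 q.1.2 =
      if q.1 = (i0, j0) then -8 * (n j0 - n i0) else 0 := by
  obtain ⟨⟨i, j⟩, hij⟩ := q
  have hne : i0 ≠ j0 := by
    rintro rfl
    linarith
  unfold lim
  by_cases hc : n i < ρ ∧ ρ < n j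
  · simp only [hc, and_self, if_true]
    have h3 : i ≠ j0 := by
      rintro rfl
      linarith [hc.1]
    have h4 : j ≠ i0 := by
      rintro rfl
      linarith [hc.2]
    by_cases hi : i = i0 <;> by_cases hj : j = j0
    · subst hi hj
      simp [Function.update_of_ne h3, Function.update_of_ne h4]
      ring
    · subst hi
      simp [Function.update_of_ne h3, Function.update_of_ne h4, hj]
    · subst hj
      simp [Function.update_of_ne h3, Function.update_of_ne h4, hi]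
    · simp [Function.update_of_ne h3, Function.update_of_ne h4, Function.update_of_ne hj, hi]
  · simp only [hc, if_false]
    rw [if_neg]
    · ring
    · rintro h0
      rw [Prod.mk.injEq] at h0
      obtain ⟨rfl, rfl⟩ := h0
      exact hc ⟨h1, h2⟩

variable {K : Type*} [Field K] (lam : Fin (m + 1) → Kˣ)

/-- The exponents at the embedding `σ`. -/
noncomputable def ex (σ : K →+* ℂ) (i : Fin (m + 1)) : ℝ := Real.log ‖σ (lam i)‖

/-- The loops: the embedding, the level and the signs. -/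
abbrev Rw : Type _ :=
  {r : (K →+* ℂ) × ℝ × (Fin (m + 1) → ℤˣ) // Gen (ex lam r.1) r.2.1}

/-- The limit matrix. -/
noncomputable def LM (r : Rw lam) (q : Pr m) : ℝ :=
  2 * Real.pi * lim (ex lam r.1.1) r.1.2.1 r.1.2.2 q.1.1 q.1.2

variable {lam}

theorem ex_lt {σ : K →+* ℂ} {i j : Fin (m + 1)} (h : ‖σ (lam i)‖ < ‖σ (lam j)‖) :
    ex lam σ i < ex lam σ j := by
  refine Real.log_lt_log (norm_pos_iff.2 ?_) h
  exact (map_ne_zero σ).2 (lam i).ne_zero

theorem LM_kernel (h : ∀ i j, i ≠ j → ∃ σ : K →+* ℂ, ‖σ (lam i)‖ < ‖σ (lam j)‖) (x : Pr m → ℝ)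
    (hx : ∀ r, ∑ q, LM lam r q * x q = 0) : x = 0 := by
  classical
  funext q0
  obtain ⟨⟨i0, j0⟩, hij⟩ := q0
  replace hij : i0 ≠ j0 := hij
  obtain ⟨σ, hσ⟩ := h i0 j0 hij
  obtain ⟨ρ, hρ1, hρ2, hgen⟩ := exists_gen (ex lam σ) (ex_lt hσ)
  have h1 := hx ⟨(σ, ρ, fun _ => 1), hgen⟩
  have h2 := hx ⟨(σ, ρ, Function.update (fun _ => 1) i0 (-1)), hgen⟩
  have h3 := hx ⟨(σ, ρ, Function.update (fun _ => 1) j0 (-1)), hgen⟩
  have h4 := hx ⟨(σ, ρ, Function.update (Function.update (fun _ => 1) i0 (-1)) j0 (-1)), hgen⟩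
  have h5 : ∑ q : Pr m, (2 * Real.pi) *
      (if q.1 = (i0, j0) then -8 * (ex lam σ j0 - ex lam σ i0) else 0) * x q = 0 := by
    have e : ∑ q : Pr m, (2 * Real.pi) *
        (if q.1 = (i0, j0) then -8 * (ex lam σ j0 - ex lam σ i0) else 0) * x q =
        ∑ q, LM lam ⟨(σ, ρ, fun _ => 1), hgen⟩ q * x q -
        ∑ q, LM lam ⟨(σ, ρ, Function.update (fun _ => 1) i0 (-1)), hgen⟩ q * x q -
        ∑ q, LM lam ⟨(σ, ρ, Function.update (fun _ => 1) j0 (-1)), hgen⟩ q * x q +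
        ∑ q, LM lam ⟨(σ, ρ, Function.update (Function.update (fun _ => 1) i0 (-1)) j0 (-1)),
          hgen⟩ q * x q := by
      rw [← Finset.sum_sub_distrib, ← Finset.sum_sub_distrib, ← Finset.sum_add_distrib]
      refine Finset.sum_congr rfl fun q _ => ?_
      rw [← second_diff (ex lam σ) hρ1 hρ2 q]
      unfold LM
      ring
    rw [e, h1, h2, h3, h4]
    ring
  rw [Finset.sum_eq_single (⟨(i0, j0), hij⟩ : Pr m)] at h5
  · rw [if_pos rfl] at h5
    have h7 : 2 * Real.pi * (-8 * (ex lam σ j0 - ex lam σ i0)) ≠ 0 := by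
      have := Real.pi_pos
      refine mul_ne_zero (by positivity) (mul_ne_zero (by norm_num) ?_)
      linarith
    exact (mul_eq_zero.1 h5).resolve_left h7
  · intro q _ hq
    rw [if_neg (fun h => hq (Subtype.ext h)), mul_zero, zero_mul]
  · intro h
    exact absurd (Finset.mem_univ _) h

variable [CharZero K]

/-- The loops for large powers. -/
theorem exists_loops (h : ∀ i j, i ≠ j → ∃ σ : K →+* ℂ, ‖σ (lam i)‖ < ‖σ (lam j)‖) :
    ∃ N₀ : ℕ, ∀ N ≥ N₀, ∃ Γ : Pr m → Torus (CR fun i => lam i ^ N) 1,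
      (∀ t, ∃ σ : K →+* ℂ, ∀ θ x, (Γ t).e θ (cst _ x) = σ x) ∧
      (Matrix.of fun t q => (Γ t).reg (cl (fun i => lam i ^ N) q)).det ≠ 0 := by
  classical
  obtain ⟨f, hf⟩ := Pool.Agent.L7h9.CP.exists_minor (LM lam) (LM_kernel h)
  obtain ⟨δ, hδ, hnear⟩ := Pool.Agent.TH826.SX.det_ne_zero_near _ hf
  have hlate : ∀ t : Pr m, Late (VV (ex lam (f t).1.1)) fun s p =>
      Nice (ex lam (f t).1.1) (f t).1.2.1 (f t).1.2.2 p ∧ ∀ q : Pr m,
        |pairing ![uf (ex lam (f t).1.1) (f t).1.2.1 (f t).1.2.2 q.1.1 q.1.2 p,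
          xf (ex lam (f t).1.1) (f t).1.2.1 (f t).1.2.2 q.1.2 q.1.1 p] / s -
          LM lam (f t) q| ≤ δ / 2 := fun t =>
    (late_nice (f t).1.2.2 (f t).2).and (Late.all fun q : Pr m =>
      late_reg (f t).1.2.2 (f t).2 q.2 (by linarith))
  choose S hS hS' using hlate
  obtain ⟨N₀, hN₀⟩ := exists_nat_ge (∑ t, |S t|)
  refine ⟨max N₀ 1, fun N hN => ?_⟩
  have hN1 : (1 : ℝ) ≤ N := by exact_mod_cast (le_max_right _ _).trans hN
  have hNS : ∀ t, S t ≤ N := fun t => by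
    have h1 := Finset.single_le_sum (f := fun c => |S c|) (fun _ _ => abs_nonneg _)
      (Finset.mem_univ t)
    have h2 := le_abs_self (S t)
    have h3 : (N₀ : ℝ) ≤ N := by exact_mod_cast (le_max_left _ _).trans hN
    linarith
  have hV : ∀ t, VV (ex lam (f t).1.1) (N : ℝ)
      ((N : ℝ), fun i => (f t).1.1 ((lam i ^ N : Kˣ) : K)) := by
    intro t
    refine ⟨rfl, fun i => ?_⟩
    show ‖(f t).1.1 ((lam i ^ N : Kˣ) : K)‖ = Real.exp (Real.log ‖(f t).1.1 (lam i)‖ * N)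
    rw [Units.val_pow_eq_pow_val, map_pow, norm_pow, mul_comm, Real.exp_nat_mul, Real.exp_log]
    exact norm_pos_iff.2 ((map_ne_zero _).2 (lam i).ne_zero)
  choose hnice hreg using fun t => hS' t N (hNS t) _ (hV t)
  choose Γ hΓσ hΓ using fun t => (hnice t).exists_loop (lam := fun i => lam i ^ N)
    (σ := (f t).1.1) (fun _ => rfl)
  refine ⟨Γ, fun t => ⟨_, hΓσ t⟩, fun h0 => ?_⟩
  have h1 := hnear (Matrix.of fun t q => (Γ t).reg (cl (fun i => lam i ^ N) q) / (N : ℝ))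
    (fun t q => by
      rw [Matrix.of_apply, Matrix.of_apply, hΓ]
      exact lt_of_le_of_lt (hreg t q) (by linarith))
  apply h1
  have h4 : (Matrix.of fun t q => (Γ t).reg (cl (fun i => lam i ^ N) q) / (N : ℝ)) =
      (N : ℝ)⁻¹ • Matrix.of fun t q => (Γ t).reg (cl (fun i => lam i ^ N) q) := by
    ext t k
    rw [Matrix.smul_apply, Matrix.of_apply, Matrix.of_apply, smul_eq_mul, div_eq_inv_mul]
  rw [h4, Matrix.det_smul, h0, mul_zero]

end Pool.Agent.L7h9.FR
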