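import Pool.Agent.L7h9.FR.Ev
set_option autoImplicit false

/-!
The loops `|w| = exp (-ρ s)` in the curves `y_i ^ 2 = Λ_i ^ 2 w ^ 2 + 4`, and the regulators of the
symbols `{(x_ij - 1) / (x_ij + 1), x_ji}`, `x_ij = Λ_j w y_i / (2 y_j)`, on these loops.
-/

namespace Pool.Agent.L7h9.FR

open Pool.Agent.TH826.MK

open Pool.Agent.N65.TL (good_inv lw_inv)

section gen

variable {P : Type*} {V : ℝ → P → Prop} {G H B1 B2 : P → (Fin 1 → ℝ) → ℂ} {a b k l : ℝ}

theorem evSm_half (h1 : EvSm V B1) (h2 : EvSm V B2) :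
    EvSm V fun p θ => (rt (B1 p) θ / rt (B2 p) θ - 1) / 2 := by
  intro δ hδ
  set η : ℝ := min (δ / 3) (1 / 8) with hη
  have hη0 : 0 < η := by positivity
  have hη8 : η ≤ 1 / 8 := min_le_right _ _
  have hηδ : 3 * η ≤ δ := by
    have := min_le_left (δ / 3) (1 / 8 : ℝ)
    linarith
  obtain ⟨S1, hS1, a1⟩ := h1 η hη0
  obtain ⟨S2, hS2, a2⟩ := h2 η hη0
  obtain ⟨S3, hS3, a3⟩ := (h1.rt.div h2.rt) η hη0
  refine ⟨max S1 (max S2 S3), hS1.trans (le_max_left _ _), fun s hs p hp => ?_⟩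
  have b1 := a1 s ((le_max_left _ _).trans hs) p hp
  have b2 := a2 s (((le_max_left _ _).trans (le_max_right _ _)).trans hs) p hp
  have b3 := a3 s (((le_max_right _ _).trans (le_max_right _ _)).trans hs) p hp
  have c1 := rt_sub_one b1 (by linarith)
  have c2 := rt_sub_one b2 (by linarith)
  have hlow : ∀ θ, 3 / 4 ≤ ‖rt (B2 p) θ‖ := by
    intro θ
    have e1 := norm_sub_norm_le (1 : ℂ) (rt (B2 p) θ)
    rw [norm_one, norm_sub_rev] at e1
    have := c2 θ
    linarith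
  have hX : ∀ θ, ‖rt (B1 p) θ / rt (B2 p) θ - 1‖ ≤ 6 * η := by
    intro θ
    have hne : rt (B2 p) θ ≠ 0 := Complex.exp_ne_zero _
    rw [div_sub_one hne, norm_div, div_le_iff₀ (by linarith [hlow θ])]
    have e1 : rt (B1 p) θ - rt (B2 p) θ = (rt (B1 p) θ - 1) - (rt (B2 p) θ - 1) := by ring
    have e2 := norm_sub_le (rt (B1 p) θ - 1) (rt (B2 p) θ - 1)
    rw [← e1] at e2
    have := c1 θ
    have := c2 θ
    nlinarith [hlow θ]
  have hsm := b3.good.smooth
  refine ⟨(hsm.sub contDiff_const).div_const _, fun θ i => ?_, fun θ => ?_, fun j θ => ?_⟩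
  · have e := b3.per θ i
    beta_reduce at e ⊢
    rw [e]
  · rw [norm_div]
    have e : ‖(2 : ℂ)‖ = 2 := by simp
    rw [e]
    have := hX θ
    linarith
  · have hd : DifferentiableAt ℝ (fun θ => rt (B1 p) θ / rt (B2 p) θ) θ :=
      (hsm.differentiable (by norm_num)) θ
    have e1 : fderiv ℝ (fun θ => (rt (B1 p) θ / rt (B2 p) θ - 1) / 2) θ =
        (2 : ℂ)⁻¹ • fderiv ℝ (fun θ => rt (B1 p) θ / rt (B2 p) θ) θ := by
      have e2 : (fun θ => (rt (B1 p) θ / rt (B2 p) θ - 1) / 2) =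
          fun θ => (2 : ℂ)⁻¹ • (rt (B1 p) θ / rt (B2 p) θ - 1) := by
        funext θ
        rw [smul_eq_mul]
        ring
      rw [e2, fderiv_fun_const_smul (hd.sub_const 1), fderiv_sub_const]
    rw [e1, smul_apply, norm_smul]
    have e2 : fderiv ℝ (fun θ => rt (B1 p) θ / rt (B2 p) θ) θ (Pi.single j 1) =
        (rt (B1 p) θ / rt (B2 p) θ) * lw (fun θ => rt (B1 p) θ / rt (B2 p) θ) j θ := by
      unfold lw
      rw [mul_div_cancel₀ _ (b3.good.ne_zero θ)]
    rw [e2, norm_mul]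
    have e3 := b3.lwd j θ
    rw [sub_zero, Complex.ofReal_zero, mul_zero, sub_zero] at e3
    have e4 : ‖rt (B1 p) θ / rt (B2 p) θ‖ ≤ 2 := by
      have e5 := norm_le_norm_add_norm_sub' (rt (B1 p) θ / rt (B2 p) θ) 1
      rw [norm_one] at e5
      have := hX θ
      linarith
    have e5 : ‖(2 : ℂ)⁻¹‖ = 1 / 2 := by simp
    rw [e5]
    have e6 : ‖rt (B1 p) θ / rt (B2 p) θ‖ * ‖lw (fun θ => rt (B1 p) θ / rt (B2 p) θ) j θ‖ ≤
        2 * η := mul_le_mul e4 e3 (norm_nonneg _) (by norm_num)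
    linarith

/-- The pairing of two functions which are close to monomials. -/
theorem ev_pairing (hG : Ev V G a k) (hH : Ev V H b l) {ε : ℝ} (hε : 0 < ε) :
    ∃ S : ℝ, 1 ≤ S ∧ ∀ s, S ≤ s → ∀ p, V s p →
      |pairing ![G p, H p] / s - 2 * Real.pi * (a * l - k * b)| ≤ ε := by
  obtain ⟨δ, hδ, h⟩ := Pool.Agent.TH826.SX.pairing_close (d := 1) !![a, k; b, l] hε
  obtain ⟨S, hS, h1⟩ := hG (δ / 2) (by linarith)
  obtain ⟨T, hT, h2⟩ := hH (δ / 2) (by linarith)
  refine ⟨max S T, hS.trans (le_max_left _ _), fun s hs p hp => ?_⟩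
  have b1 := h1 s ((le_max_left _ _).trans hs) p hp
  have b2 := h2 s ((le_max_right _ _).trans hs) p hp
  have hs1 : 1 ≤ s := hS.trans ((le_max_left _ _).trans hs)
  have h3 := h ![G p, H p] s (by linarith) (fun i => by
    fin_cases i
    · exact b1.good
    · exact b2.good) (fun i θ => by
    fin_cases i
    · exact (b1.log θ).trans_lt (by linarith)
    · exact (b2.log θ).trans_lt (by linarith)) (fun i j θ => by
    fin_cases i
    · have := b1.lwd j θ
      rw [Fin.eq_zero j] at this ⊢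
      exact this.trans_lt (by linarith)
    · have := b2.lwd j θ
      rw [Fin.eq_zero j] at this ⊢
      exact this.trans_lt (by linarith))
  rw [pow_one, Matrix.det_fin_two_of] at h3
  exact h3

/-- A property of the parameters for large `s`. -/
def Late (V : ℝ → P → Prop) (Q : ℝ → P → Prop) : Prop :=
  ∃ S : ℝ, 1 ≤ S ∧ ∀ s, S ≤ s → ∀ p, V s p → Q s p

variable {Q R : ℝ → P → Prop}

theorem Late.and (h1 : Late V Q) (h2 : Late V R) : Late V fun s p => Q s p ∧ R s p := by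
  obtain ⟨S, hS, h1⟩ := h1
  obtain ⟨T, hT, h2⟩ := h2
  exact ⟨max S T, hS.trans (le_max_left _ _), fun s hs p hp =>
    ⟨h1 s ((le_max_left _ _).trans hs) p hp, h2 s ((le_max_right _ _).trans hs) p hp⟩⟩

theorem Late.mono (h1 : Late V Q) (h : ∀ s p, 1 ≤ s → V s p → Q s p → R s p) : Late V R := by
  obtain ⟨S, hS, h1⟩ := h1
  exact ⟨S, hS, fun s hs p hp => h s p (hS.trans hs) hp (h1 s hs p hp)⟩

theorem late_true (h : ∀ s p, V s p → Q s p) : Late V Q := ⟨1, le_rfl, fun s _ p hp => h s p hp⟩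

theorem Late.all {κ : Type*} [Finite κ] {Q : κ → ℝ → P → Prop} (h : ∀ i, Late V (Q i)) :
    Late V fun s p => ∀ i, Q i s p := by
  have := Fintype.ofFinite κ
  choose S hS h using h
  have hsum : 0 ≤ ∑ a, |S a| := Finset.sum_nonneg fun _ _ => abs_nonneg _
  refine ⟨1 + ∑ a, |S a|, by linarith, fun s hs p hp i => h i s ?_ p hp⟩
  have h1 := Finset.single_le_sum (f := fun a => |S a|) (fun _ _ => abs_nonneg _)
    (Finset.mem_univ i)
  have h2 := le_abs_self (S i)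
  linarith

theorem Ev.congr' (hG : Ev V G a k) (h : Late V fun _ p => ∀ θ, G p θ = H p θ) : Ev V H a k := by
  intro δ hδ
  have h1 : Late V fun s p => Near (G p) s a k δ := hG δ hδ
  refine (h1.and h).mono fun s p _ _ hp => ?_
  have e : G p = H p := funext hp.2
  rw [← e]
  exact hp.1

theorem Ev.good (hG : Ev V G a k) : Late V fun _ p => Good (G p) ∧ Per (G p) := by
  have h1 : Late V fun s p => Near (G p) s a k 1 := hG 1 one_pos
  exact h1.mono fun s p _ _ hp => ⟨hp.good, hp.per⟩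

theorem Ev.ne (hG : Ev V G a k) : Late V fun _ p => ∀ θ, G p θ ≠ 0 :=
  hG.good.mono fun _ _ _ _ hp θ => hp.1.ne_zero θ

theorem EvSm.sq (hG : EvSm V G) : Late V fun _ p => ∀ θ, FR.rt (G p) θ ^ 2 = 1 + G p θ := by
  have h1 : Late V fun _ p => Sm (G p) (1 / 4) := hG (1 / 4) (by norm_num)
  exact h1.mono fun s p _ _ hp θ => rt_sq hp le_rfl θ

end gen

section loop

variable {m : ℕ}

/-- The parameter `s` and the values of the units. -/
abbrev Par (m : ℕ) : Type := ℝ × (Fin (m + 1) → ℂ)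

/-- The absolute values of the units are `exp (n_i s)`. -/
def VV (n : Fin (m + 1) → ℝ) (s : ℝ) (p : Par m) : Prop :=
  p.1 = s ∧ ∀ i, ‖p.2 i‖ = Real.exp (n i * s)

variable (n : Fin (m + 1) → ℝ) (ρ : ℝ) (ε : Fin (m + 1) → ℤˣ)

/-- The function `w`. -/
noncomputable def wf (p : Par m) (θ : Fin 1 → ℝ) : ℂ := (Real.exp (-ρ * p.1) : ℂ) * cx θ

/-- The function `Λ_i w`. -/
noncomputable def lf (i : Fin (m + 1)) (p : Par m) (θ : Fin 1 → ℝ) : ℂ := p.2 i * wf ρ p θ

/-- The small functions `Λ_i ^ 2 w ^ 2 / 4` or `4 / (Λ_i ^ 2 w ^ 2)`. -/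
noncomputable def bf (i : Fin (m + 1)) (p : Par m) (θ : Fin 1 → ℝ) : ℂ :=
  if n i < ρ then lf ρ i p θ * lf ρ i p θ / 4 else 4 / (lf ρ i p θ * lf ρ i p θ)

/-- The sign as a complex number. -/
noncomputable def sg (i : Fin (m + 1)) : ℂ := ((ε i : ℤ) : ℂ)

/-- The functions `y_i`. -/
noncomputable def yf (i : Fin (m + 1)) (p : Par m) (θ : Fin 1 → ℝ) : ℂ :=
  sg ε i * ((if n i < ρ then 2 else lf ρ i p θ) * rt (bf n ρ i p) θ)

/-- The functions `x_ij`. -/
noncomputable def xf (i j : Fin (m + 1)) (p : Par m) (θ : Fin 1 → ℝ) : ℂ :=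
  lf ρ j p θ * yf n ρ ε i p θ / (2 * yf n ρ ε j p θ)

/-- The functions `(x_ij - 1) / (x_ij + 1)`. -/
noncomputable def uf (i j : Fin (m + 1)) (p : Par m) (θ : Fin 1 → ℝ) : ℂ :=
  (xf n ρ ε i j p θ - 1) / (xf n ρ ε i j p θ + 1)

theorem sg_mul_self (i : Fin (m + 1)) : sg ε i * sg ε i = 1 := by
  unfold sg
  rcases Int.units_eq_one_or (ε i) with h | h <;> simp [h]

theorem sg_ne (i : Fin (m + 1)) : sg ε i ≠ 0 := by
  intro h
  have := sg_mul_self ε i
  rw [h, mul_zero] at this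
  exact zero_ne_one this

theorem ev_wf : Ev (VV n) (wf (m := m) ρ) (-ρ) 1 := by
  have h1 : Ev (VV n) (fun (p : Par m) (_ : Fin 1 → ℝ) => ((Real.exp (-ρ * p.1) : ℝ) : ℂ)) (-ρ) 0 :=
    ev_exp fun s p hp => by
      rw [Complex.norm_real, Real.norm_eq_abs, abs_of_pos (Real.exp_pos _), hp.1]
  exact (h1.mul ev_cx).congr (add_zero _) (zero_add _)

theorem ev_lf (i : Fin (m + 1)) : Ev (VV n) (lf ρ i) (n i - ρ) 1 := by
  have h1 : Ev (VV n) (fun (p : Par m) (_ : Fin 1 → ℝ) => p.2 i) (n i) 0 :=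
    ev_exp fun s p hp => hp.2 i
  exact (h1.mul (ev_wf n ρ)).congr (by ring) (zero_add _)

theorem ev_bf_lt {i : Fin (m + 1)} (h : n i < ρ) : Ev (VV n) (bf n ρ i) (2 * (n i - ρ)) 2 := by
  have h1 := ((ev_lf n ρ i).mul (ev_lf n ρ i)).div (ev_const (c := 4) (by norm_num))
  have e : bf n ρ i = fun p θ => lf ρ i p θ * lf ρ i p θ / 4 := by
    funext p θ
    unfold bf
    rw [if_pos h]
  rw [e]
  exact h1.congr (by ring) (by norm_num)

theorem ev_bf_gt {i : Fin (m + 1)} (h : ρ < n i) :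
    Ev (VV n) (bf n ρ i) (-(2 * (n i - ρ))) (-2) := by
  have h1 := (ev_const (V := VV n) (c := 4) (by norm_num)).div ((ev_lf n ρ i).mul (ev_lf n ρ i))
  have e : bf n ρ i = fun p θ => 4 / (lf ρ i p θ * lf ρ i p θ) := by
    funext p θ
    unfold bf
    rw [if_neg (not_lt.2 h.le)]
  rw [e]
  exact h1.congr (by ring) (by norm_num)

theorem evSm_bf {i : Fin (m + 1)} (h : n i ≠ ρ) : EvSm (VV n) (bf n ρ i) := by
  rcases lt_or_gt_of_ne h with h | h
  · exact (ev_bf_lt n ρ h).sm (by linarith)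
  · exact (ev_bf_gt n ρ h).sm (by linarith)

/-- The exponent of `y_i`. -/
noncomputable def ea (i : Fin (m + 1)) : ℝ := if n i < ρ then 0 else n i - ρ

/-- The winding number of `y_i`. -/
noncomputable def ew (i : Fin (m + 1)) : ℝ := if n i < ρ then 0 else 1

theorem ev_yf {i : Fin (m + 1)} (h : n i ≠ ρ) :
    Ev (VV n) (yf n ρ ε i) (ea n ρ i) (ew n ρ i) := by
  have h0 : Ev (VV n) (fun (_ : Par m) (_ : Fin 1 → ℝ) => sg ε i) 0 0 := ev_const (sg_ne ε i)
  have hr := (evSm_bf n ρ h).rt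
  rcases lt_or_gt_of_ne h with h | h
  · have h1 := h0.mul ((ev_const (c := 2) two_ne_zero).mul hr)
    have e : yf n ρ ε i = fun p θ => sg ε i * (2 * rt (bf n ρ i p) θ) := by
      funext p θ
      unfold yf
      rw [if_pos h]
    rw [e]
    refine h1.congr ?_ ?_
    · unfold ea
      rw [if_pos h]
      norm_num
    · unfold ew
      rw [if_pos h]
      norm_num
  · have h1 := h0.mul ((ev_lf n ρ i).mul hr)
    have e : yf n ρ ε i = fun p θ => sg ε i * (lf ρ i p θ * rt (bf n ρ i p) θ) := by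
      funext p θ
      unfold yf
      rw [if_neg (not_lt.2 h.le)]
    rw [e]
    refine h1.congr ?_ ?_
    · unfold ea
      rw [if_neg (not_lt.2 h.le)]
      ring
    · unfold ew
      rw [if_neg (not_lt.2 h.le)]
      norm_num

theorem ev_xf {i j : Fin (m + 1)} (hi : n i ≠ ρ) (hj : n j ≠ ρ) :
    Ev (VV n) (xf n ρ ε i j) (n j - ρ + ea n ρ i - ea n ρ j) (1 + ew n ρ i - ew n ρ j) := by
  have h1 := ((ev_lf n ρ j).mul (ev_yf n ρ ε hi)).div
    ((ev_const (c := 2) two_ne_zero).mul (ev_yf n ρ ε hj))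
  exact h1.congr (by ring) (by ring)

/-- The equation of `y_i`. -/
theorem yf_sq {i : Fin (m + 1)} (h : n i ≠ ρ) :
    Late (VV n) fun _ p => ∀ θ, yf n ρ ε i p θ ^ 2 = lf ρ i p θ ^ 2 + 4 := by
  refine ((evSm_bf n ρ h).sq.and (ev_lf n ρ i).ne).mono fun s p _ _ hp θ => ?_
  have h1 := hp.1 θ
  have h2 := hp.2 θ
  have h3 := sg_mul_self ε i
  unfold yf
  rcases lt_or_gt_of_ne h with h | h
  · rw [if_pos h]
    have h4 : bf n ρ i p θ = lf ρ i p θ * lf ρ i p θ / 4 := by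
      unfold bf
      rw [if_pos h]
    rw [h4] at h1
    calc (sg ε i * (2 * rt (bf n ρ i p) θ)) ^ 2 =
        (sg ε i * sg ε i) * (4 * rt (bf n ρ i p) θ ^ 2) := by ring
      _ = lf ρ i p θ ^ 2 + 4 := by
        rw [h1, h3]
        ring
  · rw [if_neg (not_lt.2 h.le)]
    have h4 : bf n ρ i p θ = 4 / (lf ρ i p θ * lf ρ i p θ) := by
      unfold bf
      rw [if_neg (not_lt.2 h.le)]
    rw [h4] at h1
    calc (sg ε i * (lf ρ i p θ * rt (bf n ρ i p) θ)) ^ 2 =
        (sg ε i * sg ε i) * (lf ρ i p θ ^ 2 * rt (bf n ρ i p) θ ^ 2) := by ring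
      _ = lf ρ i p θ ^ 2 + 4 := by
        rw [h1, h3]
        field_simp

end loop

end Pool.Agent.L7h9.FR
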