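import Pool.Agent.L7h9.SU.Log
import Pool.Agent.TH826.SX.Final
import Pool.Agent.N65.TL.Branch
set_option autoImplicit false

/-!
Functions on the circle which are close to monomials: `log |g| / s` is close to `a` and the
logarithmic derivative of `g` is close to `2 π i k`.
-/

namespace Pool.Agent.L7h9.FR

open Pool.Agent.TH826.MK

open Pool.Agent.N65.TL (good_inv lw_inv)

/-- `log |g| / s` is close to `a` and the winding number is `k`. -/
structure Near (g : (Fin 1 → ℝ) → ℂ) (s a k δ : ℝ) : Prop where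
  good : Good g
  per : Per g
  log : ∀ θ, |Real.log ‖g θ‖ / s - a| ≤ δ
  lwd : ∀ j θ, ‖lw g j θ - 2 * Real.pi * Complex.I * k‖ ≤ δ

/-- Small functions. -/
structure Sm (h : (Fin 1 → ℝ) → ℂ) (η : ℝ) : Prop where
  smooth : ContDiff ℝ 2 h
  per : Per h
  le : ∀ θ, ‖h θ‖ ≤ η
  der : ∀ j θ, ‖fderiv ℝ h θ (Pi.single j 1)‖ ≤ η

variable {g h : (Fin 1 → ℝ) → ℂ} {s a k δ b l ε η : ℝ}

theorem Near.mono (hg : Near g s a k δ) (hδ : δ ≤ ε) : Near g s a k ε :=
  ⟨hg.good, hg.per, fun θ => (hg.log θ).trans hδ, fun j θ => (hg.lwd j θ).trans hδ⟩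

theorem Near.nonneg (hg : Near g s a k δ) : 0 ≤ δ := (abs_nonneg _).trans (hg.log 0)

theorem Near.congr (hg : Near g s a k δ) (ha : a = b) (hk : k = l) : Near g s b l δ := by
  subst ha hk
  exact hg

theorem Near.mul (hg : Near g s a k δ) (hh : Near h s b l ε) :
    Near (fun θ => g θ * h θ) s (a + b) (k + l) (δ + ε) := by
  refine ⟨hg.good.mul hh.good, fun θ i => ?_, fun θ => ?_, fun j θ => ?_⟩
  · rw [hg.per, hh.per]
  · rw [norm_mul, Real.log_mul (norm_ne_zero_iff.2 (hg.good.ne_zero θ))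
      (norm_ne_zero_iff.2 (hh.good.ne_zero θ))]
    have e : (Real.log ‖g θ‖ + Real.log ‖h θ‖) / s - (a + b) =
        (Real.log ‖g θ‖ / s - a) + (Real.log ‖h θ‖ / s - b) := by ring
    rw [e]
    exact (abs_add_le _ _).trans (add_le_add (hg.log θ) (hh.log θ))
  · rw [lw_mul hg.good hh.good]
    have e : lw g j θ + lw h j θ - 2 * Real.pi * Complex.I * ((k + l : ℝ) : ℂ) =
        (lw g j θ - 2 * Real.pi * Complex.I * k) + (lw h j θ - 2 * Real.pi * Complex.I * l) := by
      push_cast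
      ring
    rw [e]
    exact (norm_add_le _ _).trans (add_le_add (hg.lwd j θ) (hh.lwd j θ))

theorem Near.inv (hg : Near g s a k δ) : Near (fun θ => (g θ)⁻¹) s (-a) (-k) δ := by
  refine ⟨good_inv hg.good, fun θ i => ?_, fun θ => ?_, fun j θ => ?_⟩
  · rw [hg.per]
  · rw [norm_inv, Real.log_inv]
    have e : -Real.log ‖g θ‖ / s - -a = -(Real.log ‖g θ‖ / s - a) := by ring
    rw [e, abs_neg]
    exact hg.log θ
  · rw [lw_inv hg.good]
    have e : -lw g j θ - 2 * Real.pi * Complex.I * ((-k : ℝ) : ℂ) =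
        -(lw g j θ - 2 * Real.pi * Complex.I * k) := by
      push_cast
      ring
    rw [e, norm_neg]
    exact hg.lwd j θ

theorem near_const {c : ℂ} (hc : c ≠ 0) : Near (fun _ => c) s (Real.log ‖c‖ / s) 0 0 := by
  refine ⟨good_const hc, fun _ _ => rfl, fun θ => ?_, fun j θ => ?_⟩
  · rw [sub_self, abs_zero]
  · rw [lw_const, Complex.ofReal_zero, mul_zero, sub_zero, norm_zero]

/-- A constant which does not depend on `s`. -/
theorem near_const' {c : ℂ} (hc : c ≠ 0) (hδ : |Real.log ‖c‖ / s| ≤ δ) :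
    Near (fun _ => c) s 0 0 δ := by
  refine ⟨good_const hc, fun _ _ => rfl, fun θ => ?_, fun j θ => ?_⟩
  · rw [sub_zero]
    exact hδ
  · rw [lw_const, Complex.ofReal_zero, mul_zero, sub_zero, norm_zero]
    exact (abs_nonneg _).trans hδ

/-- A constant of absolute value `exp (a s)`. -/
theorem near_const_exp {c : ℂ} (hs : s ≠ 0) (hc : ‖c‖ = Real.exp (a * s)) :
    Near (fun _ => c) s a 0 0 := by
  have hc0 : c ≠ 0 := by
    rw [← norm_ne_zero_iff, hc]
    exact (Real.exp_pos _).ne'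
  refine (near_const hc0).congr ?_ rfl
  rw [hc, Real.log_exp, mul_div_cancel_right₀ _ hs]

/-- `exp (2 π i θ)`. -/
noncomputable def cx (θ : Fin 1 → ℝ) : ℂ := Complex.exp (2 * Real.pi * Complex.I * θ 0)

theorem near_cx : Near cx s 0 1 0 := by
  have hsm : ContDiff ℝ 2 cx := by
    unfold cx
    have h1 : ContDiff ℝ 2 fun θ : Fin 1 → ℝ => ((θ 0 : ℝ) : ℂ) :=
      Complex.ofRealCLM.contDiff.comp (contDiff_apply ℝ ℝ 0)
    exact Complex.contDiff_exp.comp (contDiff_const.mul h1)
  refine ⟨⟨hsm, fun θ => Complex.exp_ne_zero _⟩, fun θ i => ?_, fun θ => ?_, fun j θ => ?_⟩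
  · unfold cx
    rw [Fin.eq_zero i, Pi.add_apply, Pi.single_eq_same]
    push_cast
    rw [mul_add, mul_one, Complex.exp_add, Complex.exp_two_pi_mul_I, mul_one]
  · have h1 : ‖cx θ‖ = 1 := by
      unfold cx
      rw [Complex.norm_exp]
      have e : (2 * Real.pi * Complex.I * (θ 0 : ℂ)).re = 0 := by
        simp
      rw [e, Real.exp_zero]
    rw [h1, Real.log_one, zero_div, sub_zero, abs_zero]
  · have h1 : HasFDerivAt (fun θ : Fin 1 → ℝ => ((θ 0 : ℝ) : ℂ))
        (Complex.ofRealCLM.comp (ContinuousLinearMap.proj 0)) θ :=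
      Complex.ofRealCLM.hasFDerivAt.comp θ
        (ContinuousLinearMap.proj (R := ℝ) (φ := fun _ : Fin 1 => ℝ) 0).hasFDerivAt
    have h2 := (h1.const_mul (2 * Real.pi * Complex.I)).cexp
    have h3 : fderiv ℝ cx θ = _ := h2.fderiv
    have h4 : lw cx j θ = 2 * Real.pi * Complex.I := by
      unfold lw
      rw [h3, Fin.eq_zero j]
      have h5 : cx θ ≠ 0 := Complex.exp_ne_zero _
      rw [div_eq_iff h5]
      simp [cx, mul_comm]
    rw [h4]
    simp

/-- Functions with a negative exponent are small. -/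
theorem Near.sm (hg : Near g s a k δ) (hs : 0 < s)
    (hη : Real.exp ((a + δ) * s) * (2 * Real.pi * |k| + δ + 1) ≤ η) : Sm g η := by
  have hδ := hg.nonneg
  have hpi := Real.pi_pos
  have hk := abs_nonneg k
  have hn : ∀ θ, ‖g θ‖ ≤ Real.exp ((a + δ) * s) := by
    intro θ
    have h1 := (abs_le.1 (hg.log θ)).2
    have h2 : Real.log ‖g θ‖ ≤ (a + δ) * s := by
      have h3 : Real.log ‖g θ‖ / s ≤ a + δ := by linarith
      rwa [div_le_iff₀ hs] at h3
    rw [← Real.log_le_iff_le_exp (norm_pos_iff.2 (hg.good.ne_zero θ))]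
    exact h2
  refine ⟨hg.good.smooth, hg.per, fun θ => (hn θ).trans (le_trans ?_ hη), fun j θ => ?_⟩
  · have h1 : Real.exp ((a + δ) * s) * 1 ≤
        Real.exp ((a + δ) * s) * (2 * Real.pi * |k| + δ + 1) := by
      refine mul_le_mul_of_nonneg_left ?_ (Real.exp_pos _).le
      have : 0 ≤ 2 * Real.pi * |k| := by positivity
      linarith
    linarith
  · have h1 : fderiv ℝ g θ (Pi.single j 1) = g θ * lw g j θ := by
      unfold lw
      rw [mul_div_cancel₀ _ (hg.good.ne_zero θ)]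
    rw [h1, norm_mul]
    have h2 : ‖lw g j θ‖ ≤ 2 * Real.pi * |k| + δ := by
      have h3 := norm_le_norm_add_norm_sub' (lw g j θ) (2 * Real.pi * Complex.I * k)
      have h4 := hg.lwd j θ
      have h5 : ‖2 * Real.pi * Complex.I * (k : ℂ)‖ = 2 * Real.pi * |k| := by
        rw [norm_mul, norm_mul, norm_mul, Complex.norm_I, Complex.norm_real, Complex.norm_real,
          Real.norm_eq_abs, Real.norm_eq_abs, abs_of_pos hpi]
        simp
      rw [h5] at h3
      linarith
    refine (mul_le_mul (hn θ) (h2.trans (by linarith)) (norm_nonneg _)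
      (Real.exp_pos _).le).trans hη

/-- `1 + h` for small `h`. -/
theorem Sm.near (hh : Sm h η) (hη : η ≤ 1 / 2) (hs : 1 ≤ s) :
    Near (fun θ => 1 + h θ) s 0 0 (2 * η) := by
  have h0 : 0 ≤ η := (norm_nonneg _).trans (hh.le 0)
  have hlow : ∀ θ, 1 - η ≤ ‖1 + h θ‖ := by
    intro θ
    have h1 := norm_sub_le_norm_add (1 : ℂ) (h θ)
    rw [norm_one] at h1
    have := hh.le θ
    linarith
  have hup : ∀ θ, ‖1 + h θ‖ ≤ 1 + η := by
    intro θ
    have h1 := norm_add_le (1 : ℂ) (h θ)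
    rw [norm_one] at h1
    have := hh.le θ
    linarith
  have hpos : ∀ θ, 0 < ‖1 + h θ‖ := fun θ => by
    have := hlow θ
    linarith
  refine ⟨⟨contDiff_const.add hh.smooth, fun θ => norm_pos_iff.1 (hpos θ)⟩, fun θ i => ?_,
    fun θ => ?_, fun j θ => ?_⟩
  · rw [hh.per]
  · rw [sub_zero, abs_div, abs_of_pos (by linarith : 0 < s), div_le_iff₀ (by linarith)]
    have h1 : |Real.log ‖1 + h θ‖| ≤ 2 * η := by
      rw [abs_le]
      constructor
      · have h2 := Real.one_sub_inv_le_log_of_pos (hpos θ)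
        have h3 : ‖1 + h θ‖⁻¹ ≤ (1 - η)⁻¹ := inv_anti₀ (by linarith) (hlow θ)
        have h4 : (1 - η)⁻¹ ≤ 1 + 2 * η := by
          rw [inv_le_iff_one_le_mul₀ (by linarith)]
          nlinarith
        linarith
      · have h2 := Real.log_le_sub_one_of_pos (hpos θ)
        have := hup θ
        linarith
    have h2 : 2 * η * 1 ≤ 2 * η * s := mul_le_mul_of_nonneg_left hs (by linarith)
    linarith
  · rw [Complex.ofReal_zero, mul_zero, sub_zero]
    unfold lw
    rw [fderiv_const_add, norm_div, div_le_iff₀ (hpos θ)]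
    have h1 := hh.der j θ
    have h2 := hlow θ
    nlinarith

end Pool.Agent.L7h9.FR
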