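import Pool.Agent.L7h9.FR.Loop
set_option autoImplicit false

/-!
The regulators of the symbols `{(x_ij - 1) / (x_ij + 1), x_ji}` on the loops.
-/

namespace Pool.Agent.L7h9.FR

open Pool.Agent.TH826.MK

variable {m : ℕ} (n : Fin (m + 1) → ℝ) (ρ : ℝ) (ε : Fin (m + 1) → ℤˣ)

/-- Conditions on `ρ`. -/
structure Gen (n : Fin (m + 1) → ℝ) (ρ : ℝ) : Prop where
  ne : ∀ i, n i ≠ ρ
  add : ∀ i j, i ≠ j → n i + n j ≠ 2 * ρ

/-- The limit of the regulators. -/
noncomputable def lim (i j : Fin (m + 1)) : ℝ :=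
  if n i < ρ ∧ ρ < n j then -2 * (n j - n i) * (((ε i : ℤ) : ℝ) * ((ε j : ℤ) : ℝ)) else 0

/-- The case `n_i < ρ < n_j`: the function `(x_ij - 1) / (x_ij + 1)` up to the sign. -/
noncomputable def gf (i j : Fin (m + 1)) (p : Par m) (θ : Fin 1 → ℝ) : ℂ :=
  (bf n ρ i p θ - bf n ρ j p θ) / ((1 + bf n ρ j p θ) *
    (4 * ((1 + (rt (bf n ρ i p) θ / rt (bf n ρ j p) θ - 1) / 2) *
      (1 + (rt (bf n ρ i p) θ / rt (bf n ρ j p) θ - 1) / 2))))

variable {n ρ}

theorem ev_gf_den {i j : Fin (m + 1)} (h : Gen n ρ) :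
    Ev (VV n) (fun p θ => (1 + bf n ρ j p θ) *
    (4 * ((1 + (rt (bf n ρ i p) θ / rt (bf n ρ j p) θ - 1) / 2) *
      (1 + (rt (bf n ρ i p) θ / rt (bf n ρ j p) θ - 1) / 2)))) 0 0 := by
  have h1 := (evSm_bf n ρ (h.ne j)).near
  have h2 := (evSm_half (evSm_bf n ρ (h.ne i)) (evSm_bf n ρ (h.ne j))).near
  exact (h1.mul ((ev_const (c := 4) (by norm_num)).mul (h2.mul h2))).congr (by ring) (by ring)

theorem ev_gf {i j : Fin (m + 1)} (h : Gen n ρ) (hi : n i < ρ) (hj : ρ < n j) :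
    ∃ a k : ℝ, Ev (VV n) (gf n ρ i j) a k ∧
      a * 2 - k * (n i + n j - 2 * ρ) = -2 * (n j - n i) := by
  have h1 := ev_bf_lt n ρ hi
  have h2 := ev_bf_gt n ρ hj
  have hd := ev_gf_den (i := i) (j := j) h
  have hij : i ≠ j := by
    rintro rfl
    linarith
  rcases lt_or_gt_of_ne (h.add i j hij) with h3 | h3
  · refine ⟨-(2 * (n j - ρ)), -2, ?_, by ring⟩
    exact ((h1.sub_of_gt h2 (by linarith)).div hd).congr (by ring) (by ring)
  · refine ⟨2 * (n i - ρ), 2, ?_, by ring⟩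
    exact ((h1.sub_of_lt h2 (by linarith)).div hd).congr (by ring) (by ring)

theorem uf_eq {i j : Fin (m + 1)} (h : Gen n ρ) (hi : n i < ρ) (hj : ρ < n j) :
    Late (VV n) fun _ p => ∀ θ, (ε i * ε j = 1 → gf n ρ i j p θ = uf n ρ ε i j p θ) ∧
      (ε i * ε j = -1 → (gf n ρ i j p θ)⁻¹ = uf n ρ ε i j p θ) := by
  have hsi := (evSm_bf n ρ (h.ne i))
  have hsj := (evSm_bf n ρ (h.ne j))
  obtain ⟨a, k, hg, -⟩ := ev_gf h hi hj
  refine (((hsi.sq.and hsj.sq).and ((ev_lf n ρ j).ne.and (evSm_half hsi hsj).near.ne)).and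
    (hsj.near.ne.and hg.ne)).mono fun s p _ _ hp θ => ?_
  obtain ⟨⟨⟨h1, h2⟩, h3, h4⟩, h5, h6⟩ := hp
  replace h1 := h1 θ
  replace h2 := h2 θ
  replace h3 := h3 θ
  replace h4 := h4 θ
  replace h5 := h5 θ
  replace h6 := h6 θ
  have hri : rt (bf n ρ i p) θ ≠ 0 := Complex.exp_ne_zero _
  have hrj : rt (bf n ρ j p) θ ≠ 0 := Complex.exp_ne_zero _
  set A := rt (bf n ρ i p) θ with hA
  set B := rt (bf n ρ j p) θ with hB
  have hx : xf n ρ ε i j p θ = (sg ε i * sg ε j) * (A / B) := by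
    unfold xf yf
    rw [if_pos hi, if_neg (not_lt.2 hj.le), ← hA, ← hB]
    have e1 := sg_mul_self ε j
    have e2 := sg_ne ε j
    have e3 : sg ε j = (sg ε j)⁻¹ := eq_inv_of_mul_eq_one_left e1
    field_simp
    rw [pow_two, e1, mul_one]
  have hg' : gf n ρ i j p θ = (A / B - 1) / (A / B + 1) := by
    unfold gf at h6 ⊢
    rw [← hA, ← hB]
    have e1 : 1 + (A / B - 1) / 2 = (A / B + 1) / 2 := by ring
    rw [e1] at h4
    have e2 : A / B + 1 ≠ 0 := by
      intro h0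
      rw [h0, zero_div] at h4
      exact h4 rfl
    have e3 : bf n ρ i p θ - bf n ρ j p θ = A ^ 2 - B ^ 2 := by
      rw [h1, h2]
      ring
    have e4 : (1 + bf n ρ j p θ) = B ^ 2 := h2.symm
    rw [e1, e3, e4]
    have e5 : A + B ≠ 0 := by
      intro h0
      apply e2
      have e6 : A / B + 1 = (A + B) / B := by field_simp
      rw [e6, h0, zero_div]
    field_simp
    ring
  have h7 : A / B - 1 ≠ 0 := by
    intro h0
    rw [hg', h0, zero_div] at h6
    exact h6 rfl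
  have h8 : A / B + 1 ≠ 0 := by
    intro h0
    rw [hg', h0, div_zero] at h6
    exact h6 rfl
  have hsg : sg ε i * sg ε j = (((ε i * ε j : ℤˣ) : ℤ) : ℂ) := by
    unfold sg
    push_cast
    rfl
  refine ⟨fun he => ?_, fun he => ?_⟩
  · unfold uf
    rw [hx, hsg, he, hg']
    simp
  · unfold uf
    rw [hx, hsg, he, hg', inv_div]
    have e1 : (((-1 : ℤˣ) : ℤ) : ℂ) = -1 := by simp
    rw [e1, neg_one_mul]
    have e2 : -(A / B) - 1 = -(A / B + 1) := by ring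
    have e3 : -(A / B) + 1 = -(A / B - 1) := by ring
    rw [e2, e3, neg_div_neg_eq]

/-- The functions `(x_ij - 1) / (x_ij + 1)` and their pairings with `x_ji`. -/
theorem ev_uf {i j : Fin (m + 1)} (h : Gen n ρ) (hij : i ≠ j) :
    ∃ a k : ℝ, Ev (VV n) (uf n ρ ε i j) a k ∧
      a * (1 + ew n ρ j - ew n ρ i) - k * (n i - ρ + ea n ρ j - ea n ρ i) = lim n ρ ε i j := by
  by_cases hc : n i < ρ ∧ ρ < n j
  · obtain ⟨hi, hj⟩ := hc
    obtain ⟨a, k, hg, hak⟩ := ev_gf h hi hj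
    have e1 : ew n ρ i = 0 := if_pos hi
    have e2 : ew n ρ j = 1 := if_neg (not_lt.2 hj.le)
    have e3 : ea n ρ i = 0 := if_pos hi
    have e4 : ea n ρ j = n j - ρ := if_neg (not_lt.2 hj.le)
    have e5 : lim n ρ ε i j =
      -2 * (n j - n i) * (((ε i : ℤ) : ℝ) * ((ε j : ℤ) : ℝ)) := if_pos ⟨hi, hj⟩
    have e6 : ((ε i : ℤ) : ℝ) * ((ε j : ℤ) : ℝ) = (((ε i * ε j : ℤˣ) : ℤ) : ℝ) := by
      push_cast
      rfl
    rw [e1, e2, e3, e4, e5, e6]
    rcases Int.units_eq_one_or (ε i * ε j) with he | he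
    · refine ⟨a, k, hg.congr' ((uf_eq ε h hi hj).mono fun s p _ _ hp θ => (hp θ).1 he), ?_⟩
      rw [he]
      push_cast
      linear_combination hak
    · refine ⟨-a, -k, hg.inv.congr' ((uf_eq ε h hi hj).mono fun s p _ _ hp θ => (hp θ).2 he), ?_⟩
      rw [he]
      push_cast
      linear_combination -hak
  · refine ⟨0, 0, ?_, ?_⟩
    · refine (ev_xf n ρ ε (h.ne i) (h.ne j)).ratio ?_
      unfold ea
      have hi := h.ne i
      have hj := h.ne j
      have hadd := h.add i j hij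
      rcases lt_or_gt_of_ne hi with hi | hi <;> rcases lt_or_gt_of_ne hj with hj | hj
      · rw [if_pos hi, if_pos hj]
        intro h0
        linarith
      · exact absurd ⟨hi, hj⟩ hc
      · rw [if_neg (not_lt.2 hi.le), if_pos hj]
        intro h0
        apply hadd
        linarith
      · rw [if_neg (not_lt.2 hi.le), if_neg (not_lt.2 hj.le)]
        intro h0
        linarith
    · unfold lim
      rw [if_neg hc]
      ring

/-- The regulators. -/
theorem late_reg {i j : Fin (m + 1)} (h : Gen n ρ) (hij : i ≠ j) {δ : ℝ} (hδ : 0 < δ) :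
    Late (VV n) fun s p =>
      |pairing ![uf n ρ ε i j p, xf n ρ ε j i p] / s - 2 * Real.pi * lim n ρ ε i j| ≤ δ := by
  obtain ⟨a, k, h1, h2⟩ := ev_uf ε h hij
  rw [← h2]
  exact ev_pairing h1 (ev_xf n ρ ε (h.ne j) (h.ne i)) hδ

end Pool.Agent.L7h9.FR
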