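import Pool.Agent.L7h9.FR.Ring
import Pool.Agent.L7h9.FR.Reg
set_option autoImplicit false

/-!
The loops in the complex points of the curves.
-/

namespace Pool.Agent.L7h9.FR

open Pool.Agent.TH826.MK

open Pool.Agent.N65.TL (good_inv)

variable {m : ℕ} (n : Fin (m + 1) → ℝ) (ρ : ℝ) (ε : Fin (m + 1) → ℤˣ)

/-- The values of the generators on the loop. -/
noncomputable def vals (p : Par m) (θ : Fin 1 → ℝ) : Gn m → ℂ
  | Gn.w => wf ρ p θ
  | Gn.w' => (wf ρ p θ)⁻¹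
  | Gn.t i => yf n ρ ε i p θ * (yf n ρ ε 0 p θ)⁻¹
  | Gn.t' i => yf n ρ ε 0 p θ * (yf n ρ ε i p θ)⁻¹
  | Gn.r i j _ => (xf n ρ ε i j p θ ^ 2 - 1)⁻¹

/-- The properties of the functions on the loop which are needed. -/
structure Nice (p : Par m) : Prop where
  w : Good (wf ρ p) ∧ Per (wf ρ p)
  y : ∀ i, Good (yf n ρ ε i p) ∧ Per (yf n ρ ε i p)
  x : ∀ i j, Good (xf n ρ ε i j p) ∧ Per (xf n ρ ε i j p)
  u : ∀ q : Pr m, Good (uf n ρ ε q.1.1 q.1.2 p) ∧ Per (uf n ρ ε q.1.1 q.1.2 p)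
  sq : ∀ i θ, yf n ρ ε i p θ ^ 2 = lf ρ i p θ ^ 2 + 4

theorem late_nice {n : Fin (m + 1) → ℝ} {ρ : ℝ} (h : Gen n ρ) :
    Late (VV n) fun _ p => Nice n ρ ε p := by
  have h1 := (ev_wf n ρ).good
  have h2 := Late.all fun i => (ev_yf n ρ ε (h.ne i)).good
  have h3 := Late.all fun i => Late.all fun j => (ev_xf n ρ ε (h.ne i) (h.ne j)).good
  have h4 := Late.all fun q : Pr m => (ev_uf ε h q.2).choose_spec.choose_spec.1.good
  have h5 := Late.all fun i => yf_sq n ρ ε (h.ne i)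
  refine ((h1.and h2).and (h3.and (h4.and h5))).mono fun s p _ _ hp => ?_
  obtain ⟨⟨a1, a2⟩, a3, a4, a5⟩ := hp
  exact ⟨a1, a2, a3, a4, a5⟩

variable {n ρ ε} {p : Par m}

theorem Nice.ne_one (h : Nice n ρ ε p) {i j : Fin (m + 1)} (hij : i ≠ j) (θ : Fin 1 → ℝ) :
    xf n ρ ε i j p θ - 1 ≠ 0 ∧ xf n ρ ε i j p θ + 1 ≠ 0 := by
  have h1 := (h.u ⟨(i, j), hij⟩).1.ne_zero θ
  unfold uf at h1
  exact div_ne_zero_iff.1 h1

theorem Nice.sq_ne (h : Nice n ρ ε p) {i j : Fin (m + 1)} (hij : i ≠ j) (θ : Fin 1 → ℝ) :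
    xf n ρ ε i j p θ ^ 2 - 1 ≠ 0 := by
  obtain ⟨h1, h2⟩ := h.ne_one hij θ
  have e : xf n ρ ε i j p θ ^ 2 - 1 = (xf n ρ ε i j p θ - 1) * (xf n ρ ε i j p θ + 1) := by ring
  rw [e]
  exact mul_ne_zero h1 h2

theorem Nice.vals_smooth (h : Nice n ρ ε p) (g : Gn m) :
    ContDiff ℝ 2 fun θ => vals n ρ ε p θ g := by
  cases g with
  | w => exact h.w.1.smooth
  | w' => exact (good_inv h.w.1).smooth
  | t i => exact ((h.y i).1.mul (good_inv (h.y 0).1)).smooth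
  | t' i => exact ((h.y 0).1.mul (good_inv (h.y i).1)).smooth
  | r i j hij =>
    have hg : Good fun θ => xf n ρ ε i j p θ ^ 2 - 1 :=
      ⟨((h.x i j).1.smooth.pow 2).sub contDiff_const, fun θ => h.sq_ne hij θ⟩
    exact (good_inv hg).smooth

theorem Nice.vals_periodic (h : Nice n ρ ε p) (θ : Fin 1 → ℝ) (l : Fin 1) :
    vals n ρ ε p (θ + Pi.single l 1) = vals n ρ ε p θ := by
  have hw := h.w.2 θ l
  have hy := fun i => (h.y i).2 θ l
  have hx := fun i j => (h.x i j).2 θ l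
  funext g
  cases g with
  | w => exact hw
  | w' =>
    show (wf ρ p (θ + Pi.single l 1))⁻¹ = (wf ρ p θ)⁻¹
    rw [hw]
  | t i =>
    show yf n ρ ε i p (θ + Pi.single l 1) * (yf n ρ ε 0 p (θ + Pi.single l 1))⁻¹ =
      yf n ρ ε i p θ * (yf n ρ ε 0 p θ)⁻¹
    rw [hy, hy]
  | t' i =>
    show yf n ρ ε 0 p (θ + Pi.single l 1) * (yf n ρ ε i p (θ + Pi.single l 1))⁻¹ =
      yf n ρ ε 0 p θ * (yf n ρ ε i p θ)⁻¹
    rw [hy, hy]
  | r i j hij =>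
    show (xf n ρ ε i j p (θ + Pi.single l 1) ^ 2 - 1)⁻¹ = (xf n ρ ε i j p θ ^ 2 - 1)⁻¹
    rw [hx]

variable {K : Type*} [Field K] {lam : Fin (m + 1) → Kˣ} {σ : K →+* ℂ}

theorem Nice.eval_xp (h : Nice n ρ ε p) (hp : ∀ i, p.2 i = σ (lam i)) (i j : Fin (m + 1))
    (θ : Fin 1 → ℝ) :
    MvPolynomial.eval₂ σ (vals n ρ ε p θ) (xp lam i j) = xf n ρ ε i j p θ := by
  unfold xp
  rw [MvPolynomial.eval₂_mul, MvPolynomial.eval₂_mul, MvPolynomial.eval₂_mul,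
    MvPolynomial.eval₂_C, MvPolynomial.eval₂_X, MvPolynomial.eval₂_X, MvPolynomial.eval₂_X,
    map_div₀, map_ofNat, ← hp j]
  show p.2 j / 2 * wf ρ p θ * (yf n ρ ε i p θ * (yf n ρ ε 0 p θ)⁻¹) *
    (yf n ρ ε 0 p θ * (yf n ρ ε j p θ)⁻¹) =
      (p.2 j * wf ρ p θ) * yf n ρ ε i p θ / (2 * yf n ρ ε j p θ)
  have h0 := (h.y 0).1.ne_zero θ
  have h1 := (h.y j).1.ne_zero θ
  field_simp

theorem Nice.eval_rel (h : Nice n ρ ε p) (hp : ∀ i, p.2 i = σ (lam i)) (θ : Fin 1 → ℝ)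
    (r : Rl m) : MvPolynomial.eval₂ σ (vals n ρ ε p θ) (rel lam r) = 0 := by
  have h0 := (h.y 0).1.ne_zero θ
  have hw := h.w.1.ne_zero θ
  cases r with
  | inv =>
    unfold rel
    rw [MvPolynomial.eval₂_sub, MvPolynomial.eval₂_mul, MvPolynomial.eval₂_X,
      MvPolynomial.eval₂_X, MvPolynomial.eval₂_one]
    show wf ρ p θ * (wf ρ p θ)⁻¹ - 1 = 0
    rw [mul_inv_cancel₀ hw, sub_self]
  | one =>
    unfold rel
    rw [MvPolynomial.eval₂_sub, MvPolynomial.eval₂_X, MvPolynomial.eval₂_one]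
    show yf n ρ ε 0 p θ * (yf n ρ ε 0 p θ)⁻¹ - 1 = 0
    rw [mul_inv_cancel₀ h0, sub_self]
  | unit i =>
    unfold rel
    rw [MvPolynomial.eval₂_sub, MvPolynomial.eval₂_mul, MvPolynomial.eval₂_X,
      MvPolynomial.eval₂_X, MvPolynomial.eval₂_one]
    show yf n ρ ε i p θ * (yf n ρ ε 0 p θ)⁻¹ * (yf n ρ ε 0 p θ * (yf n ρ ε i p θ)⁻¹) - 1 = 0
    have h1 := (h.y i).1.ne_zero θ
    field_simp
    ring
  | sq i =>
    unfold rel
    have e4 : MvPolynomial.eval₂ σ (vals n ρ ε p θ) 4 = 4 :=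
      map_ofNat (MvPolynomial.eval₂Hom σ (vals n ρ ε p θ)) 4
    rw [MvPolynomial.eval₂_sub, MvPolynomial.eval₂_mul, MvPolynomial.eval₂_add,
      MvPolynomial.eval₂_add, MvPolynomial.eval₂_mul, MvPolynomial.eval₂_mul,
      MvPolynomial.eval₂_pow, MvPolynomial.eval₂_pow, MvPolynomial.eval₂_C, MvPolynomial.eval₂_C,
      MvPolynomial.eval₂_X, MvPolynomial.eval₂_X, e4, map_pow, map_pow, ← hp, ← hp]
    show (yf n ρ ε i p θ * (yf n ρ ε 0 p θ)⁻¹) ^ 2 * (p.2 0 ^ 2 * wf ρ p θ ^ 2 + 4) -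
      (p.2 i ^ 2 * wf ρ p θ ^ 2 + 4) = 0
    have h1 : yf n ρ ε i p θ ^ 2 = (p.2 i * wf ρ p θ) ^ 2 + 4 := h.sq i θ
    have h2 : yf n ρ ε 0 p θ ^ 2 = (p.2 0 * wf ρ p θ) ^ 2 + 4 := h.sq 0 θ
    rw [← mul_pow, ← mul_pow, ← h1, ← h2]
    field_simp
    ring
  | r i j hij =>
    unfold rel
    rw [MvPolynomial.eval₂_sub, MvPolynomial.eval₂_mul, MvPolynomial.eval₂_sub,
      MvPolynomial.eval₂_pow, MvPolynomial.eval₂_X, MvPolynomial.eval₂_one, h.eval_xp hp]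
    show (xf n ρ ε i j p θ ^ 2 - 1)⁻¹ * (xf n ρ ε i j p θ ^ 2 - 1) - 1 = 0
    rw [inv_mul_cancel₀ (h.sq_ne hij θ), sub_self]

variable [CharZero K]

/-- The loops. -/
theorem Nice.exists_loop (h : Nice n ρ ε p) (hp : ∀ i, p.2 i = σ (lam i)) :
    ∃ Γ : Torus (CR lam) 1, (∀ θ x, Γ.e θ (cst lam x) = σ x) ∧
      ∀ q : Pr m, Γ.reg (cl lam q) =
        pairing ![uf n ρ ε q.1.1 q.1.2 p, xf n ρ ε q.1.2 q.1.1 p] := by
  refine ⟨lp σ (vals n ρ ε p) h.vals_smooth h.vals_periodic (h.eval_rel hp), fun θ x => ?_,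
    fun q => ?_⟩
  · exact pt_cst σ _ (h.eval_rel hp θ) x
  · have hx : ∀ i j θ, (lp σ (vals n ρ ε p) h.vals_smooth h.vals_periodic (h.eval_rel hp)).e θ
        (ux lam i j : CR lam) = xf n ρ ε i j p θ := by
      intro i j θ
      rw [ux_val]
      show pt σ _ (h.eval_rel hp θ) (FR.mk lam (xp lam i j)) = _
      rw [pt_mk, h.eval_xp hp]
    unfold cl
    rw [Torus.reg_symb]
    unfold Torus.pair
    congr 1
    funext l
    obtain ⟨⟨i, j⟩, hij⟩ := q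
    fin_cases l
    · funext θ
      show (lp σ (vals n ρ ε p) h.vals_smooth h.vals_periodic (h.eval_rel hp)).e θ
        ((um lam hij / uq lam hij : (CR lam)ˣ) : CR lam) = uf n ρ ε i j p θ
      have e1 : ((um lam hij / uq lam hij : (CR lam)ˣ) : CR lam) *
          ((ux lam i j : CR lam) + 1) = (ux lam i j : CR lam) - 1 := by
        show ((um lam hij / uq lam hij : (CR lam)ˣ) : CR lam) * (uq lam hij : CR lam) =
          (um lam hij : CR lam)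
        rw [← Units.val_mul, div_mul_cancel]
      have e2 := congrArg
        ((lp σ (vals n ρ ε p) h.vals_smooth h.vals_periodic (h.eval_rel hp)).e θ) e1
      rw [map_mul, map_add, map_sub, map_one, hx] at e2
      unfold uf
      rw [eq_div_iff (h.ne_one hij θ).2]
      exact e2
    · funext θ
      exact hx j i θ

end Pool.Agent.L7h9.FR
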