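import Pool.Agent.TH826.MK.Torus
import Pool.Agent.TH826.MK.Milnor
set_option autoImplicit false

/-!
The coordinate rings of the curves `t_i ^ 2 (λ_0 ^ 2 w ^ 2 + 4) = λ_i ^ 2 w ^ 2 + 4`, and the
classes `{(x_ij - 1) / (x_ij + 1), x_ji}`, `x_ij = λ_j w t_i / (2 t_j)`.
-/

namespace Pool.Agent.L7h9.FR

open Pool.Agent.TH826.MK

/-- The generators of the coordinate ring: `w`, `1 / w`, `t_i`, `1 / t_i` and
`1 / (x_ij ^ 2 - 1)`, `i ≠ j`. -/
inductive Gn (m : ℕ) : Type
  | w : Gn m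
  | w' : Gn m
  | t (i : Fin (m + 1)) : Gn m
  | t' (i : Fin (m + 1)) : Gn m
  | r (i j : Fin (m + 1)) (h : i ≠ j) : Gn m

/-- The indices of the relations of the coordinate ring. -/
inductive Rl (m : ℕ) : Type
  | inv : Rl m
  | one : Rl m
  | unit (i : Fin (m + 1)) : Rl m
  | sq (i : Fin (m + 1)) : Rl m
  | r (i j : Fin (m + 1)) (h : i ≠ j) : Rl m

variable {K : Type*} [Field K] {m : ℕ}

open MvPolynomial in
/-- The polynomial `x_ij = λ_j w t_i / (2 t_j)`. -/
noncomputable def xp (lam : Fin (m + 1) → Kˣ) (i j : Fin (m + 1)) : MvPolynomial (Gn m) K :=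
  C ((lam j : K) / 2) * X Gn.w * X (Gn.t i) * X (Gn.t' j)

open MvPolynomial in
/-- The relations of the coordinate ring. -/
noncomputable def rel (lam : Fin (m + 1) → Kˣ) : Rl m → MvPolynomial (Gn m) K
  | Rl.inv => X Gn.w * X Gn.w' - 1
  | Rl.one => X (Gn.t 0) - 1
  | Rl.unit i => X (Gn.t i) * X (Gn.t' i) - 1
  | Rl.sq i => X (Gn.t i) ^ 2 * (C ((lam 0 : K) ^ 2) * X Gn.w ^ 2 + 4) -
      (C ((lam i : K) ^ 2) * X Gn.w ^ 2 + 4)
  | Rl.r i j h => X (Gn.r i j h) * (xp lam i j ^ 2 - 1) - 1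

/-- The coordinate ring of the curve. -/
def CR (lam : Fin (m + 1) → Kˣ) : Type _ :=
  MvPolynomial (Gn m) K ⧸ Ideal.span (Set.range (rel lam))

noncomputable instance (lam : Fin (m + 1) → Kˣ) : CommRing (CR lam) :=
  inferInstanceAs (CommRing (MvPolynomial (Gn m) K ⧸ Ideal.span (Set.range (rel lam))))

variable (lam : Fin (m + 1) → Kˣ)

/-- The class of a polynomial. -/
noncomputable def mk : MvPolynomial (Gn m) K →+* CR lam := Ideal.Quotient.mk _

/-- The constants. -/
noncomputable def cst : K →+* CR lam := (mk lam).comp MvPolynomial.C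

/-- The generators in the coordinate ring. -/
noncomputable def gx (g : Gn m) : CR lam := mk lam (MvPolynomial.X g)

theorem mk_surjective : Function.Surjective (mk lam) := Ideal.Quotient.mk_surjective

theorem mk_rel (r : Rl m) : mk lam (rel lam r) = 0 :=
  Ideal.Quotient.eq_zero_iff_mem.2 (Ideal.subset_span ⟨r, rfl⟩)

theorem gx_w : gx lam Gn.w * gx lam Gn.w' = 1 := by
  have h := mk_rel lam Rl.inv
  unfold rel at h
  rw [map_sub, map_mul, map_one, sub_eq_zero] at h
  exact h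

theorem gx_t (i : Fin (m + 1)) : gx lam (Gn.t i) * gx lam (Gn.t' i) = 1 := by
  have h := mk_rel lam (Rl.unit i)
  unfold rel at h
  rw [map_sub, map_mul, map_one, sub_eq_zero] at h
  exact h

/-- The unit `w`. -/
noncomputable def uw : (CR lam)ˣ :=
  ⟨gx lam Gn.w, gx lam Gn.w', gx_w lam, (mul_comm _ _).trans (gx_w lam)⟩

/-- The unit `t_i`. -/
noncomputable def ut (i : Fin (m + 1)) : (CR lam)ˣ :=
  ⟨gx lam (Gn.t i), gx lam (Gn.t' i), gx_t lam i, (mul_comm _ _).trans (gx_t lam i)⟩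

variable [CharZero K]

/-- The unit `x_ij = λ_j w t_i / (2 t_j)`. -/
noncomputable def ux (i j : Fin (m + 1)) : (CR lam)ˣ :=
  Units.map (cst lam : K →* CR lam) (lam j / Units.mk0 2 two_ne_zero) * uw lam * ut lam i /
    ut lam j

theorem ux_val (i j : Fin (m + 1)) : (ux lam i j : CR lam) = mk lam (xp lam i j) := by
  unfold ux xp
  rw [map_mul, map_mul, map_mul, div_eq_mul_inv, Units.val_mul, Units.val_mul, Units.val_mul]
  have e1 : ((Units.map (cst lam : K →* CR lam) (lam j / Units.mk0 2 two_ne_zero) : (CR lam)ˣ) :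
      CR lam) = mk lam (MvPolynomial.C ((lam j : K) / 2)) := by
    rw [Units.coe_map, Units.val_div_eq_div_val, Units.val_mk0]
    rfl
  rw [e1]
  rfl

theorem ux_rel {i j : Fin (m + 1)} (h : i ≠ j) :
    gx lam (Gn.r i j h) * ((ux lam i j : CR lam) ^ 2 - 1) = 1 := by
  have h1 := mk_rel lam (Rl.r i j h)
  unfold rel at h1
  rw [map_sub, map_mul, map_sub, map_pow, map_one, sub_eq_zero] at h1
  rw [ux_val]
  exact h1

/-- The unit `x_ij - 1`. -/
noncomputable def um {i j : Fin (m + 1)} (h : i ≠ j) : (CR lam)ˣ :=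
  ⟨(ux lam i j : CR lam) - 1, gx lam (Gn.r i j h) * ((ux lam i j : CR lam) + 1),
    by linear_combination ux_rel lam h, by linear_combination ux_rel lam h⟩

/-- The unit `x_ij + 1`. -/
noncomputable def uq {i j : Fin (m + 1)} (h : i ≠ j) : (CR lam)ˣ :=
  ⟨(ux lam i j : CR lam) + 1, gx lam (Gn.r i j h) * ((ux lam i j : CR lam) - 1),
    by linear_combination ux_rel lam h, by linear_combination ux_rel lam h⟩

/-- The pairs of different indices. -/
abbrev Pr (m : ℕ) : Type := {p : Fin (m + 1) × Fin (m + 1) // p.1 ≠ p.2}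

/-- The class `{(x_ij - 1) / (x_ij + 1), x_ji}`. -/
noncomputable def cl (p : Pr m) : KQ (CR lam) 2 :=
  symb ![um lam p.2 / uq lam p.2, ux lam p.1.2 p.1.1]

section points

omit [CharZero K]

variable {S : Type*} [CommRing S] {lam}

/-- The points. -/
noncomputable def pt (φ : K →+* S) (v : Gn m → S)
    (h : ∀ r, MvPolynomial.eval₂ φ v (rel lam r) = 0) : CR lam →+* S :=
  Ideal.Quotient.lift _ (MvPolynomial.eval₂Hom φ v) (by
    intro a ha
    have h1 : Ideal.span (Set.range (rel lam)) ≤ RingHom.ker (MvPolynomial.eval₂Hom φ v) := by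
      rw [Ideal.span_le]
      rintro _ ⟨r, rfl⟩
      exact h r
    exact h1 ha)

theorem pt_mk (φ : K →+* S) (v : Gn m → S)
    (h : ∀ r, MvPolynomial.eval₂ φ v (rel lam r) = 0) (P : MvPolynomial (Gn m) K) :
    pt φ v h (mk lam P) = MvPolynomial.eval₂ φ v P := Ideal.Quotient.lift_mk _ _ _

theorem pt_gx (φ : K →+* S) (v : Gn m → S)
    (h : ∀ r, MvPolynomial.eval₂ φ v (rel lam r) = 0) (g : Gn m) :
    pt φ v h (gx lam g) = v g := by
  unfold gx
  rw [pt_mk, MvPolynomial.eval₂_X]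

theorem pt_cst (φ : K →+* S) (v : Gn m → S)
    (h : ∀ r, MvPolynomial.eval₂ φ v (rel lam r) = 0) (x : K) :
    pt φ v h (cst lam x) = φ x := by
  unfold cst
  rw [RingHom.comp_apply, pt_mk, MvPolynomial.eval₂_C]

theorem pt_congr (φ : K →+* S) {v v' : Gn m → S}
    (h : ∀ r, MvPolynomial.eval₂ φ v (rel lam r) = 0)
    (h' : ∀ r, MvPolynomial.eval₂ φ v' (rel lam r) = 0) (e : v = v') : pt φ v h = pt φ v' h' := by
  subst e
  rfl

end points

section loops

omit [CharZero K]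

variable {lam}

theorem smooth_eval {d : ℕ} (σ : K →+* ℂ) {v : (Fin d → ℝ) → Gn m → ℂ}
    (hv : ∀ g, ContDiff ℝ 2 fun θ => v θ g) (P : MvPolynomial (Gn m) K) :
    ContDiff ℝ 2 fun θ => MvPolynomial.eval₂ σ (v θ) P := by
  induction P using MvPolynomial.induction_on with
  | C a =>
    simp only [MvPolynomial.eval₂_C]
    exact contDiff_const
  | add p q hp hq =>
    simp only [MvPolynomial.eval₂_add]
    exact hp.add hq
  | mul_X p g hp =>
    simp only [MvPolynomial.eval₂_mul, MvPolynomial.eval₂_X]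
    exact hp.mul (hv g)

/-- The loops. -/
noncomputable def lp {d : ℕ} (σ : K →+* ℂ) (v : (Fin d → ℝ) → Gn m → ℂ)
    (hv : ∀ g, ContDiff ℝ 2 fun θ => v θ g) (hp : ∀ θ i, v (θ + Pi.single i 1) = v θ)
    (h : ∀ θ r, MvPolynomial.eval₂ σ (v θ) (rel lam r) = 0) : Torus (CR lam) d where
  e θ := pt σ (v θ) (h θ)
  smooth a := by
    obtain ⟨p, rfl⟩ := mk_surjective lam a
    simp only [pt_mk]
    exact smooth_eval σ hv p
  periodic θ i := pt_congr σ _ _ (hp θ i)

end loops

end Pool.Agent.L7h9.FR
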