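import Pool.Agent.L7h9.FR.Ring
import Pool.Agent.TH826.MK.Variety
set_option autoImplicit false

/-!
The classes are unramified.
-/

namespace Pool.Agent.L7h9.FR

open scoped WithZero

open Pool.Agent.TH826.MK

section loc

variable {L : Type*} [Field L]

theorem val_four_le (v : Valuation L ℤᵐ⁰) : v (4 : L) ≤ 1 := by
  have h : IsIntegral ℤ ((4 : ℕ) : L) := by
    have h1 : ((4 : ℕ) : L) = algebraMap ℤ L 4 := by simp
    rw [h1]
    exact isIntegral_algebraMap
  have h2 := val_le_one_of_integral v h
  push_cast at h2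
  exact h2

/-- The class `{(x - 1) / (x + 1), z}` if `c (x - 1 / x) = z - 1 / z`, `c` a unit of the valuation
ring. -/
theorem mem_unitPart_pair (v : Valuation L ℤᵐ⁰) {x z u : Lˣ} {c : L} (hx : (x : L) + 1 ≠ 0)
    (hu : (u : L) * (x + 1) = x - 1) (hc : v c = 1)
    (h : c * ((x : L) - (x : L)⁻¹) = z - (z : L)⁻¹) : symb ![u, z] ∈ unitPart v 2 := by
  have hx0 : (x : L) ≠ 0 := x.ne_zero
  have hz0 : (z : L) ≠ 0 := z.ne_zero
  have hvx0 : 0 < v (x : L) := zero_lt_iff.2 ((Valuation.ne_zero_iff v).2 hx0)
  have hvz0 : 0 < v (z : L) := zero_lt_iff.2 ((Valuation.ne_zero_iff v).2 hz0)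
  by_cases hvx : v (x : L) = 1
  · -- the absolute value of `x` is one
    have h1 : v ((x : L) - (x : L)⁻¹) ≤ 1 := by
      refine (Valuation.map_sub_le (v := v) (g := 1) hvx.le ?_)
      rw [map_inv₀, hvx, inv_one]
    have h2 : v ((z : L) - (z : L)⁻¹) ≤ 1 := by
      rw [← h, map_mul, hc, one_mul]
      exact h1
    have hvz : v (z : L) = 1 := by
      by_contra hne
      rcases lt_or_gt_of_ne hne with h3 | h3
      · have h4 : 1 < v ((z : L)⁻¹) := by
          rw [map_inv₀]
          exact (one_lt_inv₀ hvz0).2 h3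
        have h5 : v ((z : L) - (z : L)⁻¹) = v ((z : L)⁻¹) :=
          Valuation.map_sub_eq_of_lt_right v (h3.trans h4)
        rw [h5] at h2
        exact absurd h4 (not_lt.2 h2)
      · have h4 : v ((z : L)⁻¹) < 1 := by
          rw [map_inv₀]
          exact inv_lt_one_of_one_lt₀ h3
        have h5 : v ((z : L) - (z : L)⁻¹) = v (z : L) :=
          Valuation.map_sub_eq_of_lt_left v (h4.trans h3)
        rw [h5] at h2
        exact absurd h3 (not_lt.2 h2)
    by_cases hvu : v (u : L) = 1
    · refine Submodule.subset_span ⟨![u, z], fun i => ?_, rfl⟩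
      fin_cases i
      · exact hvu
      · exact hvz
    · have h3 : v ((x : L) + 1) ≤ 1 :=
        Valuation.map_add_le (v := v) (g := 1) hvx.le (by rw [map_one])
      have h4 : v ((x : L) - 1) ≤ 1 :=
        Valuation.map_sub_le (v := v) (g := 1) hvx.le (by rw [map_one])
      have h5 : v ((x : L) - 1) * v ((x : L) + 1) < 1 := by
        rcases h3.lt_or_eq with h6 | h6
        · exact mul_lt_one_of_nonneg_of_lt_one_right h4 zero_le h6
        · rcases h4.lt_or_eq with h7 | h7
          · rw [h6, mul_one]
            exact h7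
          · exfalso
            apply hvu
            have h8 := congrArg v hu
            rw [map_mul, h6, h7, mul_one] at h8
            exact h8
      have h6 : (z : L) ^ 2 - 1 = (z : L) * c * (x : L)⁻¹ * (((x : L) - 1) * ((x : L) + 1)) := by
        have e1 : (z : L) ^ 2 - 1 = (z : L) * (z - (z : L)⁻¹) := by
          field_simp
        rw [e1, ← h]
        field_simp
        ring
      refine mem_unitPart_of_pow v 1 _ (m := 2) two_ne_zero ?_
      show v ((z : L) ^ 2 - 1) < 1
      rw [h6, map_mul, map_mul, map_mul, map_mul, map_inv₀, hvx, hvz, hc, inv_one, one_mul,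
        one_mul, one_mul]
      exact h5
  · -- the function `u` is a one-unit up to a sign
    refine mem_unitPart_of_pow v 0 _ (m := 2) two_ne_zero ?_
    show v ((u : L) ^ 2 - 1) < 1
    have e1 : (u : L) ^ 2 - 1 = -(4 * x) / ((x : L) + 1) ^ 2 := by
      have e2 : (u : L) = (x - 1) / (x + 1) := by
        rw [eq_div_iff hx, hu]
      rw [e2]
      field_simp
      ring
    have h4 := val_four_le v
    rw [e1, map_div₀, Valuation.map_neg, map_mul, map_pow]
    rcases lt_or_gt_of_ne hvx with h3 | h3
    · have h5 : v ((x : L) + 1) = 1 := by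
        have h6 := Valuation.map_add_eq_of_lt_right v (x := (x : L)) (y := 1)
          (by rw [map_one]; exact h3)
        rw [h6, map_one]
      rw [h5, one_pow, div_one]
      exact mul_lt_one_of_nonneg_of_lt_one_right h4 zero_le h3
    · have h5 : v ((x : L) + 1) = v (x : L) :=
        Valuation.map_add_eq_of_lt_left v (x := (x : L)) (y := 1) (by rw [map_one]; exact h3)
      rw [h5]
      have h6 : v (4 : L) * v (x : L) / v (x : L) ^ 2 = v (4 : L) * (v (x : L))⁻¹ := by
        field_simp
      rw [h6]
      exact mul_lt_one_of_nonneg_of_lt_one_right h4 zero_le (inv_lt_one_of_one_lt₀ h3)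

end loc

variable {K L : Type*} [Field K] [CharZero K] [Field L] {m : ℕ} {lam : Fin (m + 1) → Kˣ}

/-- The relation of `x_ij` and `x_ji`. -/
theorem ux_eq (f : CR lam →+* L) (i j : Fin (m + 1)) :
    f (cst lam (lam j : K)) * (f (ux lam i j : CR lam) - (f (ux lam i j : CR lam))⁻¹) =
      f (cst lam (lam i : K)) * (f (ux lam j i : CR lam) - (f (ux lam j i : CR lam))⁻¹) := by
  have hcomp : ∀ x : K, (f.comp (cst lam)) x = f (cst lam x) := fun _ => rfl
  have h2 : (f.comp (cst lam)) 2 = 2 := map_ofNat _ 2
  have hchar : (2 : L) ≠ 0 := by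
    rw [← h2]
    exact (map_ne_zero _).2 two_ne_zero
  have hl : ∀ i, f (cst lam (lam i : K)) ≠ 0 := fun i => by
    rw [← hcomp]
    exact (map_ne_zero _).2 (lam i).ne_zero
  have hw : f (uw lam : CR lam) ≠ 0 := ((uw lam).isUnit.map f).ne_zero
  have ht : ∀ i, f (ut lam i : CR lam) ≠ 0 := fun i => ((ut lam i).isUnit.map f).ne_zero
  have hsq : ∀ i, f (ut lam i : CR lam) ^ 2 *
      (f (cst lam (lam 0 : K)) ^ 2 * f (uw lam : CR lam) ^ 2 + 4) =
      f (cst lam (lam i : K)) ^ 2 * f (uw lam : CR lam) ^ 2 + 4 := by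
    intro i
    have h1 := congrArg f (mk_rel lam (Rl.sq i))
    unfold rel at h1
    have h4 : f (mk lam 4) = 4 := map_ofNat (f.comp (mk lam)) 4
    simp only [map_sub, map_mul, map_add, map_pow, map_zero, h4] at h1
    rw [sub_eq_zero] at h1
    exact h1
  have hx : ∀ i j, f (ux lam i j : CR lam) = f (cst lam (lam j : K)) / 2 * f (uw lam : CR lam) *
      f (ut lam i : CR lam) / f (ut lam j : CR lam) := by
    intro i j
    have e1 : (ux lam i j : CR lam) * (ut lam j : CR lam) * cst lam 2 =
        cst lam (lam j : K) * (uw lam : CR lam) * (ut lam i : CR lam) := by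
      have e2 : ux lam i j * ut lam j = Units.map (cst lam : K →* CR lam)
          (lam j / Units.mk0 2 two_ne_zero) * uw lam * ut lam i := by
        unfold ux
        rw [div_mul_cancel]
      have e3 := congrArg (Units.val) e2
      rw [Units.val_mul, Units.val_mul, Units.val_mul, Units.coe_map] at e3
      rw [e3]
      have e4 : ((cst lam : K →* CR lam) ((lam j / Units.mk0 (2 : K) two_ne_zero : Kˣ) : K)) *
          cst lam 2 = cst lam (lam j : K) := by
        show cst lam ((lam j / Units.mk0 (2 : K) two_ne_zero : Kˣ) : K) * cst lam 2 = _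
        rw [← map_mul, Units.val_div_eq_div_val, Units.val_mk0, div_mul_cancel₀ _ two_ne_zero]
      rw [← e4]
      ring
    have e2 := congrArg f e1
    rw [map_mul, map_mul, map_mul, map_mul, ← hcomp 2, h2] at e2
    have := ht j
    rw [eq_div_iff this, div_mul_eq_mul_div, div_mul_eq_mul_div, eq_div_iff hchar]
    exact e2
  rw [hx, hx]
  have h0 := hsq i
  have h1 := hsq j
  have := hl i
  have := hl j
  have := ht i
  have := ht j
  set a := f (cst lam (lam i : K))
  set b := f (cst lam (lam j : K))
  set w := f (uw lam : CR lam)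
  set s := f (ut lam i : CR lam)
  set t := f (ut lam j : CR lam)
  field_simp
  linear_combination (t ^ 2) * h0 - (s ^ 2) * h1

/-- The classes are unramified if the `λ_i` are units of the ring of integers. -/
theorem cl_unramified (h1 : ∀ i, IsIntegral ℤ (lam i : K))
    (h2 : ∀ i, IsIntegral ℤ (((lam i)⁻¹ : Kˣ) : K)) (f : CR lam →+* L) (p : Pr m) :
    KQ.map 2 f (cl lam p) ∈ Unramified L 2 := by
  unfold cl
  rw [KQ.map_symb]
  unfold Unramified
  rw [Submodule.mem_iInf]
  intro v
  rw [Submodule.mem_iInf]
  intro _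
  obtain ⟨⟨i, j⟩, hij⟩ := p
  have e : (fun l => Units.map (f : CR lam →* L)
      (![um lam hij / uq lam hij, ux lam j i] l)) =
      ![Units.map (f : CR lam →* L) (um lam hij / uq lam hij),
        Units.map (f : CR lam →* L) (ux lam j i)] := by
    funext l
    fin_cases l <;> rfl
  show symb (fun l => Units.map (f : CR lam →* L)
      (![um lam hij / uq lam hij, ux lam j i] l)) ∈ unitPart v 2
  rw [e]
  have hv : ∀ i, v (f (cst lam (lam i : K))) = 1 := by
    intro i
    refine le_antisymm (val_le_one_of_integral v (map_isIntegral_int (f.comp (cst lam)) (h1 i))) ?_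
    have h3 := val_le_one_of_integral v (map_isIntegral_int (f.comp (cst lam)) (h2 i))
    have h4 : f (cst lam (lam i : K)) * (f.comp (cst lam)) (((lam i)⁻¹ : Kˣ) : K) = 1 := by
      show (f.comp (cst lam)) (lam i : K) * _ = 1
      rw [← map_mul, Units.mul_inv, map_one]
    have h5 := congrArg v h4
    rw [map_mul, map_one] at h5
    by_contra hlt
    rw [not_le] at hlt
    have h6 := mul_lt_one_of_nonneg_of_lt_one_left zero_le hlt h3
    rw [h5] at h6
    exact lt_irrefl _ h6
  have h0 : f (cst lam (lam i : K)) ≠ 0 := by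
    intro h0
    have := hv i
    rw [h0, map_zero] at this
    exact zero_ne_one this
  refine mem_unitPart_pair v (x := Units.map (f : CR lam →* L) (ux lam i j))
    (c := f (cst lam (lam j : K)) / f (cst lam (lam i : K))) ?_ ?_ ?_ ?_
  · have e1 : f (ux lam i j : CR lam) + 1 = f (uq lam hij : CR lam) := by
      show _ = f ((ux lam i j : CR lam) + 1)
      rw [map_add, map_one]
    show f (ux lam i j : CR lam) + 1 ≠ 0
    rw [e1]
    exact ((uq lam hij).isUnit.map f).ne_zero
  · have e1 : ((um lam hij / uq lam hij : (CR lam)ˣ) : CR lam) * ((ux lam i j : CR lam) + 1) =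
        (ux lam i j : CR lam) - 1 := by
      show ((um lam hij / uq lam hij : (CR lam)ˣ) : CR lam) * (uq lam hij : CR lam) =
        (um lam hij : CR lam)
      rw [← Units.val_mul, div_mul_cancel]
    have e2 := congrArg f e1
    rw [map_mul, map_add, map_sub, map_one] at e2
    exact e2
  · rw [map_div₀, hv, hv, div_one]
  · show _ * (f (ux lam i j : CR lam) - (f (ux lam i j : CR lam))⁻¹) =
      f (ux lam j i : CR lam) - (f (ux lam j i : CR lam))⁻¹
    rw [div_mul_eq_mul_div, div_eq_iff h0, ux_eq, mul_comm]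

end Pool.Agent.L7h9.FR
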